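import Mathlib
import Pool.Agent.W_ef8234_h97.Defs

/-! # Rauzy induction: combinatorial states

Letters are `Fin (n+1)`.  `t a`, `b a` are the positions of the letter `a` in the top and in the
bottom row, `h a` is the height of its tower. -/

namespace Pool.Agent.W_ef8234_rv

open Pool.Agent.W_ef8234_h97

variable {n : ℕ}

/-- The rotation of the positions after `c`: the last position goes to `c + 1`, the others
one step to the right. -/
def rotFun (c P : Fin (n + 1)) : Fin (n + 1) :=
  if h1 : P ≤ c then P
  else if h2 : (P : ℕ) = n then ⟨(c : ℕ) + 1, by rw [Fin.le_def] at h1; omega⟩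
  else ⟨(P : ℕ) + 1, by omega⟩

/-- PROOF.  Case analysis with `omega` after `Fin.ext_iff`. -/
theorem rotFun_injective (c : Fin (n + 1)) : Function.Injective (rotFun c) := by
  intro P Q h
  have hP := P.isLt
  have hQ := Q.isLt
  unfold rotFun at h
  rw [Fin.ext_iff]
  split_ifs at h with h1 h2 h3 h4 h5 h6 h7 h8 <;>
    simp only [Fin.ext_iff, Fin.le_def] at * <;> omega

/-- `rotFun c` as a permutation. -/
noncomputable def rot (c : Fin (n + 1)) : Equiv.Perm (Fin (n + 1)) :=
  Equiv.ofBijective (rotFun c) (Finite.injective_iff_bijective.1 (rotFun_injective c))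

/-- A state of the induction. -/
structure RState (n : ℕ) where
  t : Equiv.Perm (Fin (n + 1))
  b : Equiv.Perm (Fin (n + 1))
  h : Fin (n + 1) → ℕ

/-- The last letter of the top row. -/
def RState.x (σ : RState n) : Fin (n + 1) := σ.t.symm (Fin.last n)

/-- The last letter of the bottom row. -/
def RState.y (σ : RState n) : Fin (n + 1) := σ.b.symm (Fin.last n)

/-- Exchange of the two rows. -/
def RState.swap (σ : RState n) : RState n := ⟨σ.b, σ.t, σ.h⟩

/-- The top letter `x` wins against the bottom letter `y`: in the bottom row `y` moves to the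
place right after `x`, and the height of `y` becomes `h x + h y`. -/
noncomputable def RState.win (σ : RState n) : RState n :=
  ⟨σ.t, σ.b.trans (rot (σ.b σ.x)), Function.update σ.h σ.y (σ.h σ.x + σ.h σ.y)⟩

/-- Irreducible, and all heights positive. -/
def RState.Valid (σ : RState n) : Prop :=
  (∀ k : ℕ, 0 < k → k < n + 1 → ∃ a, (σ.t a : ℕ) < k ∧ k ≤ (σ.b a : ℕ)) ∧ ∀ a, 1 ≤ σ.h a

/-- Left end of the interval of `a` if the positions are `t` and the lengths `lam`. -/
noncomputable def posS (t : Equiv.Perm (Fin (n + 1))) (lam : Fin (n + 1) → ℝ)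
    (a : Fin (n + 1)) : ℝ := ∑ i, if t i < t a then lam i else 0

/-- Sum of the lengths of the letters after `a`. -/
noncomputable def sufS (t : Equiv.Perm (Fin (n + 1))) (lam : Fin (n + 1) → ℝ)
    (a : Fin (n + 1)) : ℝ := ∑ i, if t a < t i then lam i else 0

end Pool.Agent.W_ef8234_rv
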