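import Mathlib
import Pool.Agent.W_ef8234_rv.RDefs

/-! # Combinatorics of the states -/

namespace Pool.Agent.W_ef8234_rv

open Pool.Agent.W_ef8234_h97

variable {n : ℕ}

private theorem rc_val (c P : Fin (n + 1)) : ((rot c P : Fin (n + 1)) : ℕ) =
    if (P : ℕ) ≤ c then (P : ℕ) else if (P : ℕ) = n then (c : ℕ) + 1 else (P : ℕ) + 1 := by
  show ((rotFun c P : Fin (n + 1)) : ℕ) = _
  unfold rotFun
  by_cases h1 : P ≤ c
  · have h1' : (P : ℕ) ≤ c := h1
    rw [dif_pos h1, if_pos h1']
  · have h1' : ¬ (P : ℕ) ≤ c := h1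
    rw [dif_neg h1, if_neg h1']
    split_ifs <;> rfl

theorem rot_of_le (c P : Fin (n + 1)) (h : P ≤ c) : rot c P = P := by
  have h' : (P : ℕ) ≤ c := h
  refine Fin.ext ?_
  rw [rc_val, if_pos h']

theorem rot_last (c : Fin (n + 1)) (h : c < Fin.last n) :
    ((rot c (Fin.last n) : Fin (n + 1)) : ℕ) = c + 1 := by
  have h' : (c : ℕ) < n := h
  have h2 : ((Fin.last n : Fin (n + 1)) : ℕ) = n := rfl
  rw [rc_val, if_neg (by omega), if_pos h2]

theorem rot_of_mid (c P : Fin (n + 1)) (h1 : c < P) (h2 : P < Fin.last n) :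
    ((rot c P : Fin (n + 1)) : ℕ) = P + 1 := by
  have h1' : (c : ℕ) < P := h1
  have h2' : (P : ℕ) < n := h2
  rw [rc_val, if_neg (by omega), if_neg (by omega)]

/-- The number of letters with position `< k`. -/
private theorem rc_card (t : Equiv.Perm (Fin (n + 1))) (k : ℕ) (hk : k ≤ n + 1) :
    (Finset.univ.filter fun a => (t a : ℕ) < k).card = k := by
  have h1 : (Finset.univ.filter fun a => (t a : ℕ) < k).card =
      (Finset.univ.filter fun a : Fin (n + 1) => (a : ℕ) < k).card := by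
    refine Finset.card_bij (fun a _ => t a) ?_ ?_ ?_
    · intro a ha
      simpa using ha
    · intro a _ b _ h
      exact t.injective h
    · intro b hb
      exact ⟨t.symm b, by simpa using hb, by simp⟩
  rw [h1]
  have h2 : (Finset.univ.filter fun a : Fin (n + 1) => (a : ℕ) < k).card =
      (Finset.range k).card := by
    refine Finset.card_bij (fun a _ => (a : ℕ)) ?_ ?_ ?_
    · intro a ha
      simpa using ha
    · intro a _ b _ h
      exact Fin.ext h
    · intro b hb
      have hb' := Finset.mem_range.1 hb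
      exact ⟨⟨b, by omega⟩, by simpa using hb', rfl⟩
  rw [h2, Finset.card_range]

/-- Counting: if some letter has `t < k ≤ b` then some letter has `b < k ≤ t`. -/
private theorem rc_swap (t b : Equiv.Perm (Fin (n + 1))) (k : ℕ) (hk : k ≤ n + 1)
    (h : ∃ a, (t a : ℕ) < k ∧ k ≤ (b a : ℕ)) : ∃ a, (b a : ℕ) < k ∧ k ≤ (t a : ℕ) := by
  by_contra hcon
  push Not at hcon
  obtain ⟨a, ha1, ha2⟩ := h
  have hsub : (Finset.univ.filter fun a => (b a : ℕ) < k) ⊂
      (Finset.univ.filter fun a => (t a : ℕ) < k) := by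
    rw [Finset.ssubset_iff_of_subset]
    · refine ⟨a, by simpa using ha1, ?_⟩
      simpa using ha2
    · intro c hc
      have hc' : (b c : ℕ) < k := by simpa using hc
      have := hcon c hc'
      simpa using this
  have h1 := Finset.card_lt_card hsub
  rw [rc_card b k hk, rc_card t k hk] at h1
  omega

/-- PROOF.  The number of letters with top position `< k` and the number with bottom position
`< k` are both `k`; if some letter has `t < k ≤ b` then some letter has `b < k ≤ t`. -/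
theorem valid_swap (σ : RState n) (h : σ.Valid) : σ.swap.Valid := by
  refine ⟨fun k hk0 hk => ?_, h.2⟩
  exact rc_swap σ.t σ.b k hk.le (h.1 k hk0 hk)

/-- PROOF.  If `x = y` then the letter sets of the first `n` positions coincide in both rows,
against `Valid` for `k = n` (`0 < n`). -/
theorem x_ne_y (hn : 1 ≤ n) (σ : RState n) (h : σ.Valid) : σ.x ≠ σ.y := by
  intro hxy
  obtain ⟨a, ha1, ha2⟩ := h.1 n (by omega) (by omega)
  have h1 : σ.b a = Fin.last n := by
    refine Fin.ext ?_
    show (σ.b a : ℕ) = n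
    have := (σ.b a).isLt
    omega
  have h2 : a = σ.y := by
    unfold RState.y
    rw [← h1, Equiv.symm_apply_apply]
  have h3 : σ.t a = Fin.last n := by
    rw [h2, ← hxy]
    exact Equiv.apply_symm_apply _ _
  rw [h3] at ha1
  exact absurd ha1 (lt_irrefl n)

/-- PROOF.  The top row is unchanged; let `c = b x < last` and `b' = rot c ∘ b`.
For `k ≤ c + 1` : positions `≤ c` are unchanged, so the witness for `σ` (a letter `a` with
`t a < k ≤ b a`) satisfies `b' a ≥ k` as well (if `b a ≥ c + 1` then `b' a ≥ c + 1 ≥ k`; if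
`b a ≤ c` then `b' a = b a`).
For `k > c + 1`: `x` has `b' x = c < k ≤ n = t x`; so some letter has `t a < k ≤ b' a`
(counting, as in `valid_swap`).
Heights: `h x + h y ≥ 1`. -/
theorem valid_win (hn : 1 ≤ n) (σ : RState n) (h : σ.Valid) : σ.win.Valid := by
  have hxt : (σ.t σ.x : ℕ) = n := by
    have : σ.t σ.x = Fin.last n := Equiv.apply_symm_apply _ _
    rw [this]
    rfl
  have hbx : ∀ a, ((σ.win.b a : Fin (n + 1)) : ℕ) =
      if (σ.b a : ℕ) ≤ (σ.b σ.x : ℕ) then (σ.b a : ℕ)
      else if (σ.b a : ℕ) = n then (σ.b σ.x : ℕ) + 1 else (σ.b a : ℕ) + 1 := fun a =>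
    rc_val (σ.b σ.x) (σ.b a)
  refine ⟨fun k hk0 hk => ?_, fun a => ?_⟩
  · by_cases hc : k ≤ (σ.b σ.x : ℕ) + 1
    · obtain ⟨a, ha1, ha2⟩ := h.1 k hk0 hk
      refine ⟨a, ha1, ?_⟩
      rw [hbx]
      split_ifs <;> omega
    · refine rc_swap σ.win.b σ.t k hk.le ⟨σ.x, ?_, ?_⟩
      · rw [hbx, if_pos le_rfl]
        omega
      · rw [hxt]
        omega
  · show 1 ≤ Function.update σ.h σ.y (σ.h σ.x + σ.h σ.y) a
    rcases eq_or_ne a σ.y with rfl | ha
    · rw [Function.update_self]
      have := h.2 σ.x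
      omega
    · rw [Function.update_of_ne ha]
      exact h.2 a

/-- The top letter `x` stays last in the top row. -/
theorem win_x (σ : RState n) : σ.win.x = σ.x := rfl

theorem win_h_x (hn : 1 ≤ n) (σ : RState n) (h : σ.Valid) : σ.win.h σ.x = σ.h σ.x :=
  Function.update_of_ne (x_ne_y hn σ h) _ _

theorem win_h_le (σ : RState n) (a : Fin (n + 1)) : σ.h a ≤ σ.win.h a := by
  show σ.h a ≤ Function.update σ.h σ.y (σ.h σ.x + σ.h σ.y) a
  rcases eq_or_ne a σ.y with rfl | ha
  · rw [Function.update_self]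
    omega
  · rw [Function.update_of_ne ha]

theorem win_b_x (σ : RState n) : σ.win.b σ.x = σ.b σ.x :=
  rot_of_le _ _ le_rfl

/-- PROOF.  Induction with `valid_win`, `win_x`, `win_h_x`, `win_h_le`. -/
theorem win_iter (hn : 1 ≤ n) (σ : RState n) (h : σ.Valid) (i : ℕ) :
    (RState.win^[i] σ).Valid ∧ (RState.win^[i] σ).x = σ.x ∧
      (RState.win^[i] σ).h σ.x = σ.h σ.x ∧ ∀ a, σ.h a ≤ (RState.win^[i] σ).h a := by
  induction i with
  | zero => exact ⟨h, rfl, rfl, fun a => le_rfl⟩
  | succ i ih =>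
    obtain ⟨h1, h2, h3, h4⟩ := ih
    rw [Function.iterate_succ_apply']
    refine ⟨valid_win hn _ h1, ?_, ?_, fun a => (h4 a).trans (win_h_le _ a)⟩
    · rw [win_x, h2]
    · have h5 := win_h_x hn _ h1
      rw [h2] at h5
      rw [h5, h3]

/-- PROOF.  `x ≠ y` and `y` is last in the bottom row. -/
theorem suffix_pos (hn : 1 ≤ n) (σ : RState n) (h : σ.Valid) : 1 ≤ n - (σ.b σ.x : ℕ) := by
  have h1 : (σ.b σ.x : ℕ) ≠ n := by
    intro h2
    apply x_ne_y hn σ h
    have h3 : σ.b σ.x = Fin.last n := Fin.ext h2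
    show σ.x = σ.b.symm (Fin.last n)
    rw [← h3, Equiv.symm_apply_apply]
  have h2 := (σ.b σ.x).isLt
  omega

end Pool.Agent.W_ef8234_rv
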