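import Mathlib
import Pool.Agent.W_ef8234_rv.RComb

/-! # Towers of the interval exchange map -/

namespace Pool.Agent.W_ef8234_rv

open Pool.Agent.W_ef8234_h97

variable {n : ℕ}

/-- The towers of a state: `X a i` is the left end of the level `i` of the tower of the letter
`a`, an interval of length `lam a`; `X a 0` is the left end of the interval of `a` of the induced
map in the top row, `X a (h a)` the left end of its image in the bottom row; `T₀ = iem p l`
translates the level `i` to the position `X a (i+1)`, inside one interval of `T₀`; all levels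
`X a i`, `i < h a`, are pairwise disjoint. -/
def Tow (p : Equiv.Perm (Fin (n + 1))) (l : Fin (n + 1) → ℝ) (σ : RState n)
    (lam : Fin (n + 1) → ℝ) : Prop :=
  ∃ X : Fin (n + 1) → ℕ → ℝ,
    (∀ a, X a 0 = posS σ.t lam a) ∧ (∀ a, X a (σ.h a) = posS σ.b lam a) ∧
    (∀ a, ∀ i < σ.h a, ∃ c, top l c ≤ X a i ∧ X a i + lam a ≤ top l c + l c ∧
      X a i + (bot p l c - top l c) = X a (i + 1)) ∧
    (∀ a i a' i', i < σ.h a → i' < σ.h a' → (a ≠ a' ∨ i ≠ i') →
      X a i + lam a ≤ X a' i' ∨ X a' i' + lam a' ≤ X a i)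

private theorem rt_step (t : Equiv.Perm (Fin (n + 1))) (lam : Fin (n + 1) → ℝ)
    (hlam : ∀ a, 0 < lam a) (a b : Fin (n + 1)) (hab : t a < t b) :
    posS t lam a + lam a ≤ posS t lam b := by
  unfold posS
  have h1 : lam a = ∑ i, if i = a then lam i else 0 := by
    rw [Finset.sum_ite_eq' Finset.univ a lam, if_pos (Finset.mem_univ a)]
  conv_lhs => rw [h1]
  rw [← Finset.sum_add_distrib]
  refine Finset.sum_le_sum fun i _ => ?_
  by_cases h2 : i = a
  · rw [h2, if_neg (lt_irrefl _), if_pos rfl, if_pos hab, zero_add]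
  · rw [if_neg h2, add_zero]
    by_cases h3 : t i < t a
    · rw [if_pos h3, if_pos (h3.trans hab)]
    · rw [if_neg h3]
      split_ifs
      · exact (hlam i).le
      · exact le_rfl

/-- PROOF.  `X a 0 = top l a`, `X a 1 = bot p l a`, `c = a`. -/
theorem tow_root (p : Equiv.Perm (Fin (n + 1))) (l : Fin (n + 1) → ℝ) (hl : ∀ a, 0 < l a) :
    Tow p l ⟨1, p, fun _ => 1⟩ l := by
  refine ⟨fun a i => if i = 0 then top l a else bot p l a, fun a => rfl, fun a => rfl,
    fun a i hi => ?_, fun a i a' i' hi hi' hne => ?_⟩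
  · have hi0 : i = 0 := by
      have : i < 1 := hi
      omega
    subst hi0
    refine ⟨a, le_rfl, le_rfl, ?_⟩
    show top l a + (bot p l a - top l a) = bot p l a
    ring
  · have hi0 : i = 0 := by
      have : i < 1 := hi
      omega
    have hi0' : i' = 0 := by
      have : i' < 1 := hi'
      omega
    subst hi0
    subst hi0'
    have hne' : a ≠ a' := by
      rcases hne with h | h
      · exact h
      · exact absurd rfl h
    show top l a + l a ≤ top l a' ∨ top l a' + l a' ≤ top l a
    rcases lt_or_gt_of_ne hne' with h | h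
    · exact Or.inl (rt_step 1 l hl a a' h)
    · exact Or.inr (rt_step 1 l hl a' a h)

/-- PROOF.  `posS + lam a + sufS = total` (the conditions `t i < t a`, `i = a`, `t a < t i` are
exclusive and exhaustive), and nothing is after the last letter. -/
theorem posS_total (t : Equiv.Perm (Fin (n + 1))) (lam : Fin (n + 1) → ℝ) (a : Fin (n + 1)) :
    posS t lam a + lam a + sufS t lam a = ∑ i, lam i := by
  unfold posS sufS
  have h1 : lam a = ∑ i, if i = a then lam i else 0 := by
    rw [Finset.sum_ite_eq' Finset.univ a lam, if_pos (Finset.mem_univ a)]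
  conv_lhs => rw [h1]
  rw [← Finset.sum_add_distrib, ← Finset.sum_add_distrib]
  refine Finset.sum_congr rfl fun i _ => ?_
  rcases lt_trichotomy (t i) (t a) with h | h | h
  · have hne : i ≠ a := fun h' => by
      rw [h'] at h
      exact lt_irrefl _ h
    rw [if_pos h, if_neg hne, if_neg h.not_gt]
    ring
  · have he : i = a := t.injective h
    rw [he, if_neg (lt_irrefl _), if_pos rfl]
    ring
  · have hne : i ≠ a := fun h' => by
      rw [h'] at h
      exact lt_irrefl _ h
    rw [if_neg h.not_gt, if_neg hne, if_pos h]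
    ring

theorem sufS_last (t : Equiv.Perm (Fin (n + 1))) (lam : Fin (n + 1) → ℝ) :
    sufS t lam (t.symm (Fin.last n)) = 0 := by
  unfold sufS
  refine Finset.sum_eq_zero fun i _ => if_neg ?_
  rw [Equiv.apply_symm_apply]
  exact (Fin.le_last _).not_gt

/-- The left ends after a win of the top letter: the top row.  PROOF.  `x` is last, so it is not
before any `a`: the sums do not see the change of `lam x`. -/
theorem posS_t_win (σ : RState n) (lam : Fin (n + 1) → ℝ) (u : ℝ) (a : Fin (n + 1)) :
    posS σ.t (Function.update lam σ.x u) a = posS σ.t lam a := by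
  unfold posS
  refine Finset.sum_congr rfl fun i _ => ?_
  split_ifs with h
  · have hne : i ≠ σ.x := by
      intro h'
      rw [h'] at h
      have h2 : σ.t σ.x = Fin.last n := Equiv.apply_symm_apply _ _
      rw [h2] at h
      exact (Fin.le_last _).not_gt h
    rw [Function.update_of_ne hne]
  · rfl

/-- Values of the new bottom row. -/
private theorem rt_b (hn : 1 ≤ n) (σ : RState n) (h : σ.Valid) (i : Fin (n + 1)) :
    ((σ.b σ.x : Fin (n + 1)) : ℕ) < n ∧
    ((i = σ.y ∧ (σ.b i : ℕ) = n ∧ (σ.win.b i : ℕ) = (σ.b σ.x : ℕ) + 1) ∨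
    (i ≠ σ.y ∧ (σ.b i : ℕ) ≤ (σ.b σ.x : ℕ) ∧ (σ.win.b i : ℕ) = σ.b i) ∨
    (i ≠ σ.y ∧ (σ.b σ.x : ℕ) < (σ.b i : ℕ) ∧ (σ.b i : ℕ) < n ∧
      (σ.win.b i : ℕ) = (σ.b i : ℕ) + 1)) := by
  have hxy := x_ne_y hn σ h
  have hby : ∀ j, (σ.b j : ℕ) = n ↔ j = σ.y := by
    intro j
    constructor
    · intro hj
      have h3 : σ.b j = Fin.last n := Fin.ext hj
      show j = σ.b.symm (Fin.last n)
      rw [← h3, Equiv.symm_apply_apply]
    · rintro rfl
      have h3 : σ.b σ.y = Fin.last n := Equiv.apply_symm_apply _ _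
      rw [h3]
      rfl
  have hc : ((σ.b σ.x : Fin (n + 1)) : ℕ) < n := by
    have h1 : (σ.b σ.x : ℕ) ≠ n := fun h2 => hxy ((hby _).1 h2)
    have h2 := (σ.b σ.x).isLt
    omega
  refine ⟨hc, ?_⟩
  have hw : σ.win.b i = rot (σ.b σ.x) (σ.b i) := rfl
  by_cases hi : i = σ.y
  · left
    refine ⟨hi, (hby i).2 hi, ?_⟩
    have h3 : σ.b i = Fin.last n := by
      rw [hi]
      exact Equiv.apply_symm_apply _ _
    rw [hw, h3]
    exact rot_last _ hc
  · right
    have hin : (σ.b i : ℕ) < n := by
      have h1 : (σ.b i : ℕ) ≠ n := fun h2 => hi ((hby _).1 h2)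
      have h2 := (σ.b i).isLt
      omega
    by_cases hic : (σ.b i : ℕ) ≤ (σ.b σ.x : ℕ)
    · left
      refine ⟨hi, hic, ?_⟩
      rw [hw, rot_of_le _ _ hic]
    · right
      refine ⟨hi, not_le.1 hic, hin, ?_⟩
      rw [hw]
      exact rot_of_mid _ _ (not_le.1 hic) hin

/-- The bottom row, letters different from `y`.  PROOF.  If `b a ≤ b x`: the letters before `a` are
the same, `x` and `y` are not among them.  If `b a > b x`, `a ≠ y`: the letters before `a` in
`b'` are those before `a` in `b` and `y`; `x` is among them; total change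
`- lam y + lam y = 0`. -/
theorem posS_b_win (hn : 1 ≤ n) (σ : RState n) (h : σ.Valid) (lam : Fin (n + 1) → ℝ)
    (a : Fin (n + 1)) (ha : a ≠ σ.y) :
    posS σ.win.b (Function.update lam σ.x (lam σ.x - lam σ.y)) a = posS σ.b lam a := by
  have hxy := x_ne_y hn σ h
  obtain ⟨hc, hA⟩ := rt_b hn σ h a
  unfold posS
  rcases hA with ⟨h1, -, -⟩ | ⟨-, h1, h2⟩ | ⟨-, h1, h2, h3⟩
  · exact absurd h1 ha
  · refine Finset.sum_congr rfl fun i _ => ?_
    obtain ⟨-, hB⟩ := rt_b hn σ h i
    have hiff : σ.win.b i < σ.win.b a ↔ σ.b i < σ.b a := by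
      rw [Fin.lt_def, Fin.lt_def]
      omega
    by_cases h4 : σ.b i < σ.b a
    · have hne : i ≠ σ.x := by
        intro h'
        rw [h', Fin.lt_def] at h4
        omega
      rw [if_pos h4, if_pos (hiff.2 h4), Function.update_of_ne hne]
    · rw [if_neg h4, if_neg fun h5 => h4 (hiff.1 h5)]
  · have e1 : lam σ.y = ∑ i, if i = σ.y then lam σ.y else 0 := by
      rw [Finset.sum_ite_eq' Finset.univ σ.y fun _ => lam σ.y, if_pos (Finset.mem_univ _)]
    have e2 : lam σ.y = ∑ i, if i = σ.x then lam σ.y else 0 := by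
      rw [Finset.sum_ite_eq' Finset.univ σ.x fun _ => lam σ.y, if_pos (Finset.mem_univ _)]
    have key : (∑ i, if σ.win.b i < σ.win.b a then
        Function.update lam σ.x (lam σ.x - lam σ.y) i else 0) =
        ((∑ i, if σ.b i < σ.b a then lam i else 0) + ∑ i, if i = σ.y then lam σ.y else 0) -
          ∑ i, if i = σ.x then lam σ.y else 0 := by
      rw [← Finset.sum_add_distrib, ← Finset.sum_sub_distrib]
      refine Finset.sum_congr rfl fun i _ => ?_
      obtain ⟨-, hB⟩ := rt_b hn σ h i
      rcases hB with ⟨g1, g2, g3⟩ | ⟨g1, g2, g3⟩ | ⟨g1, g2, g3, g4⟩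
      · have hne : i ≠ σ.x := fun h' => hxy (h'.symm.trans g1)
        have hl1 : σ.win.b i < σ.win.b a := by rw [Fin.lt_def]; omega
        have hl2 : ¬ σ.b i < σ.b a := by rw [Fin.lt_def]; omega
        rw [if_pos hl1, if_neg hl2, if_pos g1, if_neg hne, Function.update_of_ne hne, g1]
        ring
      · have hl1 : σ.win.b i < σ.win.b a := by rw [Fin.lt_def]; omega
        have hl2 : σ.b i < σ.b a := by rw [Fin.lt_def]; omega
        rw [if_pos hl1, if_pos hl2, if_neg g1]
        rcases eq_or_ne i σ.x with h' | h'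
        · rw [if_pos h', h', Function.update_self]
          ring
        · rw [if_neg h', Function.update_of_ne h']
          ring
      · have hne : i ≠ σ.x := by
          intro h'
          rw [h'] at g2
          exact lt_irrefl _ g2
        rw [if_neg g1, if_neg hne, Function.update_of_ne hne]
        by_cases hl2 : σ.b i < σ.b a
        · have hl1 : σ.win.b i < σ.win.b a := by
            rw [Fin.lt_def] at hl2 ⊢
            omega
          rw [if_pos hl1, if_pos hl2]
          ring
        · have hl1 : ¬ σ.win.b i < σ.win.b a := by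
            rw [Fin.lt_def] at hl2 ⊢
            omega
          rw [if_neg hl1, if_neg hl2]
          ring
    rw [key, ← e1, ← e2]
    ring

/-- The bottom row, the letter `y`.  PROOF.  In `b'` the letters before `y` are `x` and the letters
before `x` in `b`. -/
theorem posS_b_win_y (hn : 1 ≤ n) (σ : RState n) (h : σ.Valid) (lam : Fin (n + 1) → ℝ) :
    posS σ.win.b (Function.update lam σ.x (lam σ.x - lam σ.y)) σ.y =
      posS σ.b lam σ.x + (lam σ.x - lam σ.y) := by
  have hxy := x_ne_y hn σ h
  obtain ⟨hc, hY⟩ := rt_b hn σ h σ.y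
  have hy1 : (σ.win.b σ.y : ℕ) = (σ.b σ.x : ℕ) + 1 := by
    rcases hY with ⟨-, -, h1⟩ | ⟨h1, -⟩ | ⟨h1, -⟩
    · exact h1
    · exact absurd rfl h1
    · exact absurd rfl h1
  unfold posS
  have e1 : lam σ.x - lam σ.y = ∑ i, if i = σ.x then lam σ.x - lam σ.y else 0 := by
    rw [Finset.sum_ite_eq' Finset.univ σ.x fun _ => lam σ.x - lam σ.y,
      if_pos (Finset.mem_univ _)]
  conv_rhs => rw [e1]
  rw [← Finset.sum_add_distrib]
  refine Finset.sum_congr rfl fun i _ => ?_
  obtain ⟨-, hB⟩ := rt_b hn σ h i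
  rcases eq_or_ne i σ.x with h' | h'
  · have hl1 : σ.win.b i < σ.win.b σ.y := by
      rw [Fin.lt_def]
      rw [h'] at hB ⊢
      omega
    rw [if_pos hl1, if_pos h', h', Function.update_self, if_neg (lt_irrefl _), zero_add]
  · rw [if_neg h', add_zero, Function.update_of_ne h']
    have hbne : (σ.b i : ℕ) ≠ (σ.b σ.x : ℕ) := fun h2 => h' (σ.b.injective (Fin.ext h2))
    have hiff : σ.win.b i < σ.win.b σ.y ↔ σ.b i < σ.b σ.x := by
      rw [Fin.lt_def, Fin.lt_def]
      omega
    by_cases h4 : σ.b i < σ.b σ.x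
    · rw [if_pos h4, if_pos (hiff.2 h4)]
    · rw [if_neg h4, if_neg fun h5 => h4 (hiff.1 h5)]

end Pool.Agent.W_ef8234_rv
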