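import Mathlib
import Pool.Agent.W_ef8234_rv.RTow

/-! # Towers after one step -/

namespace Pool.Agent.W_ef8234_rv

open Pool.Agent.W_ef8234_h97

variable {n : ℕ}

/-- The top letter `x` wins.  PROOF.  Write `x`, `y`, `L = ∑ lam`, `lam' = lam` except
`lam' x = lam x - lam y`.  New towers: for `a ≠ y` the same `X a`, the tower of `x` with the
smaller width `lam x - lam y`; the tower of `y` is
`X' y i = X y i` for `i < h y`, `X' y (h y + i) = X x i + (lam x - lam y)` for `0 ≤ i ≤ h x`
(width `lam y`, the right part of the levels of `x`).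
Link: `X y (h y) = posS b y = L - lam y` (`y` last in the bottom row, `posS_total`,
`sufS_last`) and `X x 0 + lam x - lam y = posS t x + lam x - lam y = L - lam y`.
Ends: `posS_t_win`, `posS_b_win`, `posS_b_win_y`: `X' y (h x + h y) = posS b x + lam x - lam y`.
Inside: a level of `y` is unchanged; the right part of a level of `x` lies in the same cell.
Disjointness: new levels are subintervals of old levels, and the two parts of one level of `x` are
adjacent. -/
theorem tow_win (hn : 1 ≤ n) (p : Equiv.Perm (Fin (n + 1))) (l : Fin (n + 1) → ℝ)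
    (σ : RState n) (h : σ.Valid) (lam : Fin (n + 1) → ℝ) (hpos : ∀ a, 0 < lam a)
    (hlt : lam σ.y < lam σ.x) (H : Tow p l σ lam) :
    Tow p l σ.win (Function.update lam σ.x (lam σ.x - lam σ.y)) := by
  obtain ⟨X, H1, H2, H3, H4⟩ := H
  have hxy : σ.x ≠ σ.y := x_ne_y hn σ h
  obtain ⟨x, hx⟩ : ∃ x, x = σ.x := ⟨_, rfl⟩
  obtain ⟨y, hy⟩ : ∃ y, y = σ.y := ⟨_, rfl⟩
  have hhx : 1 ≤ σ.h x := h.2 x
  have hhy : 1 ≤ σ.h y := h.2 y
  have e1 : ∀ a, X a 0 = posS σ.t lam a := H1
  have e2 : ∀ a, X a (σ.h a) = posS σ.b lam a := H2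
  have e3 : ∀ a, ∀ i < σ.h a, ∃ c, top l c ≤ X a i ∧ X a i + lam a ≤ top l c + l c ∧
      X a i + (bot p l c - top l c) = X a (i + 1) := H3
  have e4 : ∀ a i a' i', i < σ.h a → i' < σ.h a' → (a ≠ a' ∨ i ≠ i') →
      X a i + lam a ≤ X a' i' ∨ X a' i' + lam a' ≤ X a i := H4
  have hb : ∀ a, a ≠ y →
      posS σ.win.b (Function.update lam x (lam x - lam y)) a = posS σ.b lam a := by
    rw [hx, hy]
    exact posS_b_win hn σ h lam
  have hby : posS σ.win.b (Function.update lam x (lam x - lam y)) y =
      posS σ.b lam x + (lam x - lam y) := by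
    rw [hx, hy]
    exact posS_b_win_y hn σ h lam
  have ht : ∀ a, posS σ.t (Function.update lam x (lam x - lam y)) a = posS σ.t lam a := by
    rw [hx]
    exact posS_t_win σ lam _
  have hlink : X x 0 + (lam x - lam y) = X y (σ.h y) := by
    rw [e2, e1]
    have h1 := posS_total σ.t lam x
    have h2 := posS_total σ.b lam y
    have h3 : sufS σ.t lam x = 0 := by rw [hx]; exact sufS_last σ.t lam
    have h4 : sufS σ.b lam y = 0 := by rw [hy]; exact sufS_last σ.b lam
    rw [h3] at h1
    rw [h4] at h2
    linarith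
  rw [← hx, ← hy] at hlt hxy ⊢
  have hyy : 0 < lam y := hpos y
  obtain ⟨lam', hlam'⟩ : ∃ lam' : Fin (n + 1) → ℝ,
      lam' = Function.update lam x (lam x - lam y) := ⟨_, rfl⟩
  rw [← hlam']
  rw [← hlam'] at hby
  have hlx : lam' x = lam x - lam y := by rw [hlam', Function.update_self]
  have hly : lam' y = lam y := by rw [hlam', Function.update_of_ne hxy.symm]
  have hle : ∀ a, lam' a ≤ lam a := by
    intro a
    rcases eq_or_ne a x with h1 | h1
    · rw [h1, hlx]
      linarith
    · rw [hlam', Function.update_of_ne h1]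
  have hh : ∀ a, σ.win.h a = if a = y then σ.h x + σ.h y else σ.h a := by
    intro a
    show Function.update σ.h σ.y (σ.h σ.x + σ.h σ.y) a = _
    rw [← hx, ← hy]
    rcases eq_or_ne a y with h1 | h1
    · rw [h1, Function.update_self, if_pos rfl]
    · rw [Function.update_of_ne h1, if_neg h1]
  -- the new levels
  obtain ⟨X', hX'⟩ : ∃ X' : Fin (n + 1) → ℕ → ℝ, X' = fun a i =>
      if a = y then (if i < σ.h y then X y i else X x (i - σ.h y) + (lam x - lam y))
      else X a i := ⟨_, rfl⟩
  have f1 : ∀ a i, a ≠ y → X' a i = X a i := fun a i ha => by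
    rw [hX']
    exact if_neg ha
  have f2 : ∀ i, i < σ.h y → X' y i = X y i := fun i hi => by
    rw [hX']
    show (if y = y then (if i < σ.h y then X y i else X x (i - σ.h y) + (lam x - lam y))
      else X y i) = _
    rw [if_pos rfl, if_pos hi]
  have f3 : ∀ i, σ.h y ≤ i → X' y i = X x (i - σ.h y) + (lam x - lam y) := fun i hi => by
    rw [hX']
    show (if y = y then (if i < σ.h y then X y i else X x (i - σ.h y) + (lam x - lam y))
      else X y i) = _
    rw [if_pos rfl, if_neg (not_lt.2 hi)]
  have g1 : ∀ a i i', a ≠ y → i < σ.h a → i' < σ.h x + σ.h y →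
      X' a i + lam' a ≤ X' y i' ∨ X' y i' + lam' y ≤ X' a i := by
    intro a i i' ha hi hi'
    have hla := hle a
    rw [f1 a i ha, hly]
    by_cases h1 : i' < σ.h y
    · rw [f2 i' h1]
      rcases e4 a i y i' hi h1 (Or.inl ha) with h4 | h4
      · left
        linarith
      · right
        linarith
    · rw [f3 i' (not_lt.1 h1)]
      by_cases h2 : a = x ∧ i = i' - σ.h y
      · obtain ⟨rfl, rfl⟩ := h2
        left
        rw [hlx]
      · have h3 : a ≠ x ∨ i ≠ i' - σ.h y := by
          by_contra h4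
          push Not at h4
          exact h2 h4
        rcases e4 a i x (i' - σ.h y) hi (by omega) h3 with h4 | h4
        · left
          linarith
        · right
          linarith
  refine ⟨X', fun a => ?_, fun a => ?_, fun a i hi => ?_, fun a i a' i' hi hi' hne => ?_⟩
  · show X' a 0 = posS σ.t lam' a
    rw [hlam', ht]
    rcases eq_or_ne a y with h1 | h1
    · rw [h1, f2 0 (by omega), e1]
    · rw [f1 a 0 h1, e1]
  · show X' a (σ.win.h a) = posS σ.win.b lam' a
    rw [hh]
    rcases eq_or_ne a y with h1 | h1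
    · have h2 : σ.h x + σ.h y - σ.h y = σ.h x := by omega
      rw [h1, if_pos rfl, f3 _ (by omega), h2, hby, e2]
    · rw [if_neg h1, f1 a _ h1, e2, hlam', hb a h1]
  · rw [hh] at hi
    rcases eq_or_ne a y with h1 | h1
    · subst h1
      rw [if_pos rfl] at hi
      rw [hly]
      by_cases h2 : i < σ.h a
      · obtain ⟨c, c1, c2, c3⟩ := e3 a i h2
        rw [f2 i h2]
        refine ⟨c, c1, c2, ?_⟩
        by_cases h3 : i + 1 < σ.h a
        · rw [f2 _ h3, ← c3]
        · have h4 : i + 1 = σ.h a := by omega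
          rw [f3 _ (not_lt.1 h3), h4, Nat.sub_self, hlink, ← h4, ← c3]
      · obtain ⟨c, c1, c2, c3⟩ := e3 x (i - σ.h a) (by omega)
        have h5 : i + 1 - σ.h a = i - σ.h a + 1 := by omega
        rw [f3 i (not_lt.1 h2), f3 (i + 1) (by omega), h5, ← c3]
        refine ⟨c, by linarith, by linarith, by ring⟩
    · rw [if_neg h1] at hi
      obtain ⟨c, c1, c2, c3⟩ := e3 a i hi
      rw [f1 a i h1, f1 a (i + 1) h1]
      have := hle a
      exact ⟨c, c1, by linarith, c3⟩
  · rw [hh] at hi hi'
    rcases eq_or_ne a y with h1 | h1 <;> rcases eq_or_ne a' y with h2 | h2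
    · subst h1
      subst h2
      rw [if_pos rfl] at hi hi'
      have hne' : i ≠ i' := by
        rcases hne with h3 | h3
        · exact absurd rfl h3
        · exact h3
      rw [hly]
      by_cases h3 : i < σ.h a' <;> by_cases h4 : i' < σ.h a'
      · rw [f2 i h3, f2 i' h4]
        exact e4 a' i a' i' h3 h4 (Or.inr hne')
      · rw [f2 i h3, f3 i' (not_lt.1 h4)]
        rcases e4 a' i x (i' - σ.h a') h3 (by omega) (Or.inl hxy.symm) with h5 | h5
        · left; linarith
        · right; linarith
      · rw [f3 i (not_lt.1 h3), f2 i' h4]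
        rcases e4 x (i - σ.h a') a' i' (by omega) h4 (Or.inl hxy) with h5 | h5
        · left; linarith
        · right; linarith
      · rw [f3 i (not_lt.1 h3), f3 i' (not_lt.1 h4)]
        rcases e4 x (i - σ.h a') x (i' - σ.h a') (by omega) (by omega)
          (Or.inr (by omega)) with h5 | h5
        · left; linarith
        · right; linarith
    · subst h1
      rw [if_pos rfl] at hi
      rw [if_neg h2] at hi'
      exact (g1 a' i' i h2 hi' hi).symm
    · subst h2
      rw [if_neg h1] at hi
      rw [if_pos rfl] at hi'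
      exact g1 a i i' h1 hi hi'
    · rw [if_neg h1] at hi
      rw [if_neg h2] at hi'
      rw [f1 a i h1, f1 a' i' h2]
      have := hle a
      have := hle a'
      rcases e4 a i a' i' hi hi' hne with h5 | h5
      · left; linarith
      · right; linarith

/-- A tower is a cylinder with displacement `posS b a - posS t a`. -/
theorem tow_cylinder (p : Equiv.Perm (Fin (n + 1))) (l : Fin (n + 1) → ℝ) (σ : RState n)
    (lam : Fin (n + 1) → ℝ) (H : Tow p l σ lam) (a : Fin (n + 1)) (ha : 0 < lam a)
    (hh : 1 ≤ σ.h a) :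
    ∃ X : ℕ → ℝ, IsCylinder p l X (σ.h a) (lam a) (posS σ.b lam a - posS σ.t lam a) := by
  obtain ⟨X, H1, H2, H3, H4⟩ := H
  refine ⟨X a, hh, ha, fun i hi => ?_, fun i j hij hj => ?_⟩
  · obtain ⟨c, c1, c2, c3⟩ := H3 a i hi
    refine ⟨c, c1, c2, ?_⟩
    rw [c3]
    split_ifs with h
    · rfl
    · have h1 : i + 1 = σ.h a := by omega
      rw [h1, H2, H1]
      ring
  · exact H4 a i a j (hij.trans hj) hj (Or.inr hij.ne)

end Pool.Agent.W_ef8234_rv
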