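import Mathlib
import Pool.Agent.W_ef8234_rv.RTowA
import Pool.Agent.W_ef8234_rv.RTowB

/-! # Good length vectors -/

namespace Pool.Agent.W_ef8234_rv

open Pool.Agent.W_ef8234_h97

variable {n : ℕ}

/-- The induction from `(σ, lam)` reaches a state where the last letter `x` of one of the rows has
length at least `m` times the sum of the letters after it in the other row, and area at least
`δ`. -/
inductive Good (m : ℕ) (δ : ℝ) : RState n → (Fin (n + 1) → ℝ) → Prop
  | succ (σ : RState n) (lam : Fin (n + 1) → ℝ) :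
      (m : ℝ) * sufS σ.b lam σ.x ≤ lam σ.x → δ ≤ σ.h σ.x * lam σ.x → Good m δ σ lam
  | step (σ : RState n) (lam : Fin (n + 1) → ℝ) : lam σ.y < lam σ.x →
      Good m δ σ.win (Function.update lam σ.x (lam σ.x - lam σ.y)) → Good m δ σ lam
  | swap (σ : RState n) (lam : Fin (n + 1) → ℝ) : Good m δ σ.swap lam → Good m δ σ lam

/-- PROOF.  Induction on `Good`.
`succ`: by `tow_cylinder` for the letter `x = σ.x` in the state `σ` or `σ.swap`; the displacement
is `posS b x - posS t x` or its negative, and `= - sufS σ.b lam x` resp. `+` (`posS_total`,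
`sufS_last` since `x` is last in the top row of `σ`).  It is nonzero: `σ.y ≠ σ.x` is after `x` in
the bottom row and `lam > 0`.
`step`: `valid_win`, `tow_win` / `tow_win_swap`; the new lengths are positive.
`swap`: `valid_swap`, `σ.swap.swap = σ`. -/
theorem good_cylinder (hn : 1 ≤ n) (p : Equiv.Perm (Fin (n + 1))) (l : Fin (n + 1) → ℝ)
    (m : ℕ) (δ : ℝ) (σ : RState n) (lam : Fin (n + 1) → ℝ) (hg : Good m δ σ lam)
    (h : σ.Valid) (hpos : ∀ a, 0 < lam a) (H : Tow p l σ lam ∨ Tow p l σ.swap lam) :
    ∃ (X : ℕ → ℝ) (q : ℕ) (w s : ℝ), IsCylinder p l X q w s ∧ s ≠ 0 ∧ m * |s| ≤ w ∧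
      δ ≤ q * w := by
  induction hg with
  | succ σ lam h1 h2 =>
    have hxy := x_ne_y hn σ h
    have hsuf : 0 < sufS σ.b lam σ.x := by
      have hnn : ∀ i ∈ Finset.univ, (0 : ℝ) ≤ (if σ.b σ.x < σ.b i then lam i else 0) :=
        fun i _ => by
          split_ifs
          · exact (hpos i).le
          · exact le_rfl
      have hlast : σ.b σ.y = Fin.last n := Equiv.apply_symm_apply _ _
      have hlt : σ.b σ.x < σ.b σ.y := by
        rw [hlast]
        refine lt_of_le_of_ne (Fin.le_last _) fun h3 => hxy ?_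
        rw [← hlast] at h3
        exact σ.b.injective h3
      have h3 := Finset.single_le_sum hnn (Finset.mem_univ σ.y)
      simp only [if_pos hlt] at h3
      exact lt_of_lt_of_le (hpos σ.y) h3
    have e1 := posS_total σ.b lam σ.x
    have e2 := posS_total σ.t lam σ.x
    have e3 : sufS σ.t lam σ.x = 0 := sufS_last σ.t lam
    rw [e3] at e2
    have hh : 1 ≤ σ.h σ.x := h.2 _
    rcases H with H | H
    · obtain ⟨X, hX⟩ := tow_cylinder p l σ lam H σ.x (hpos _) hh
      have e4 : posS σ.b lam σ.x - posS σ.t lam σ.x = - sufS σ.b lam σ.x := by linarith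
      rw [e4] at hX
      refine ⟨X, _, _, _, hX, neg_ne_zero.2 hsuf.ne', ?_, h2⟩
      rw [abs_neg, abs_of_pos hsuf]
      exact h1
    · obtain ⟨X, hX⟩ := tow_cylinder p l σ.swap lam H σ.x (hpos _) hh
      have e4 : posS σ.swap.b lam σ.x - posS σ.swap.t lam σ.x = sufS σ.b lam σ.x := by
        show posS σ.t lam σ.x - posS σ.b lam σ.x = _
        linarith
      rw [e4] at hX
      refine ⟨X, _, _, _, hX, hsuf.ne', ?_, h2⟩
      rw [abs_of_pos hsuf]
      exact h1
  | step σ lam hlt _ ih =>
    refine ih (valid_win hn σ h) (fun a => ?_) ?_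
    · rcases eq_or_ne a σ.x with rfl | ha
      · rw [Function.update_self]
        linarith
      · rw [Function.update_of_ne ha]
        exact hpos a
    · rcases H with H | H
      · exact Or.inl (tow_win hn p l σ h lam hpos hlt H)
      · exact Or.inr (tow_win_swap hn p l σ h lam hpos hlt H)
  | swap σ lam _ ih =>
    exact ih (valid_swap σ h) hpos H.symm

end Pool.Agent.W_ef8234_rv
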