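import Mathlib

/-! # The product of exponential laws -/

namespace Pool.Agent.W_ef8234_rv

open MeasureTheory

variable {n : ℕ}

/-- Density of independent exponential variables with parameters `h a`. -/
noncomputable def dens (h : Fin (n + 1) → ℕ) (lam : Fin (n + 1) → ℝ) : ENNReal := by
  classical
  exact if ∀ a, 0 < lam a then ENNReal.ofReal (∏ a, ((h a : ℝ) * Real.exp (-(h a * lam a)))) else 0

/-- The law of independent exponential variables. -/
noncomputable def mu (h : Fin (n + 1) → ℕ) : Measure (Fin (n + 1) → ℝ) :=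
  volume.withDensity (dens h)

/-- The density in one variable. -/
private noncomputable def den1 (k : ℕ) (t : ℝ) : ENNReal :=
  (Set.Ioi (0 : ℝ)).indicator (fun t => ENNReal.ofReal ((k : ℝ) * Real.exp (-(k * t)))) t

private theorem den1_meas (k : ℕ) : Measurable (den1 k) := by
  unfold den1
  refine Measurable.indicator ?_ measurableSet_Ioi
  exact ENNReal.measurable_ofReal.comp (by fun_prop)

private theorem dens_eq (h : Fin (n + 1) → ℕ) (lam : Fin (n + 1) → ℝ) :
    dens h lam = ∏ a, den1 (h a) (lam a) := by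
  classical
  unfold dens den1
  by_cases hl : ∀ a, 0 < lam a
  · rw [if_pos hl, ENNReal.ofReal_prod_of_nonneg (fun a _ => by positivity)]
    refine Finset.prod_congr rfl fun a _ => ?_
    rw [Set.indicator_of_mem (show lam a ∈ Set.Ioi (0 : ℝ) from hl a)]
  · rw [if_neg hl]
    push Not at hl
    obtain ⟨a, ha⟩ := hl
    refine (Finset.prod_eq_zero (Finset.mem_univ a) ?_).symm
    rw [Set.indicator_of_notMem]
    simpa using ha

/-- The density is measurable. -/
theorem dens_meas (h : Fin (n + 1) → ℕ) : Measurable (dens h) := by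
  have h1 : dens h = fun lam => ∏ a, den1 (h a) (lam a) := funext (dens_eq h)
  rw [h1]
  exact Finset.measurable_prod _ fun a _ => (den1_meas (h a)).comp (measurable_pi_apply a)

private theorem lint_prod (m : ℕ) (f : Fin m → ℝ → ENNReal) (hf : ∀ i, Measurable (f i)) :
    ∫⁻ v : Fin m → ℝ, ∏ i, f i (v i) = ∏ i, ∫⁻ t, f i t := by
  induction m with
  | zero => simp [volume_pi]
  | succ m ih =>
    have h1 := (volume_preserving_piFinSuccAbove (fun _ : Fin (m + 1) => ℝ) 0).symm
    rw [← h1.lintegral_comp_emb (MeasurableEquiv.measurableEmbedding _)]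
    simp_rw [MeasurableEquiv.piFinSuccAbove_symm_apply, Fin.insertNthEquiv,
      Fin.prod_univ_succ, Fin.insertNth_zero]
    simp only [Equiv.coe_fn_mk, Fin.cons_zero, Fin.cons_succ]
    have h2 := lintegral_prod_mul (μ := (volume : Measure ℝ))
      (ν := (volume : Measure (Fin m → ℝ))) (f := f 0)
      (g := fun v : Fin m → ℝ => ∏ i : Fin m, f i.succ (v i)) (hf 0).aemeasurable
      (Finset.measurable_prod _ fun a _ =>
        (hf a.succ).comp (measurable_pi_apply a)).aemeasurable
    rw [ih (fun i => f i.succ) fun i => hf i.succ] at h2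
    exact h2

private theorem den1_int (k : ℕ) (hk : 1 ≤ k) : ∫⁻ t, den1 k t = 1 := by
  have hk' : (0 : ℝ) < k := by exact_mod_cast hk
  have h1 := ProbabilityTheory.lintegral_exponentialPDF_eq_one hk'
  rw [← h1]
  refine lintegral_congr_ae ?_
  have h2 : ∀ᵐ t : ℝ, t ≠ 0 := Measure.ae_ne volume 0
  filter_upwards [h2] with t ht
  rw [ProbabilityTheory.exponentialPDF_eq]
  unfold den1
  rcases lt_or_gt_of_ne ht with h | h
  · rw [Set.indicator_of_notMem (by simpa using h.le), if_neg (not_le.2 h), ENNReal.ofReal_zero]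
  · rw [Set.indicator_of_mem (show t ∈ Set.Ioi (0 : ℝ) from h), if_pos h.le]

/-- PROOF.  `∫ ∏ = ∏ ∫` and `∫_0^∞ h e^{-h t} dt = 1`. -/
theorem mu_prob (h : Fin (n + 1) → ℕ) (hh : ∀ a, 1 ≤ h a) : IsProbabilityMeasure (mu h) := by
  refine ⟨?_⟩
  unfold mu
  rw [withDensity_apply _ MeasurableSet.univ, Measure.restrict_univ]
  have h1 : dens h = fun lam => ∏ a, den1 (h a) (lam a) := funext (dens_eq h)
  rw [h1, lint_prod (n + 1) (fun a => den1 (h a)) fun a => den1_meas (h a)]
  exact Finset.prod_eq_one fun a _ => den1_int (h a) (hh a)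

/-- The density vanishes elsewhere. -/
theorem dens_eq_zero (h : Fin (n + 1) → ℕ) (lam : Fin (n + 1) → ℝ) (hl : ¬ ∀ a, 0 < lam a) :
    dens h lam = 0 := by
  classical
  unfold dens
  rw [if_neg hl]

theorem dens_pos (h : Fin (n + 1) → ℕ) (lam : Fin (n + 1) → ℝ) (hl : ∀ a, 0 < lam a) :
    dens h lam = ENNReal.ofReal (∏ a, ((h a : ℝ) * Real.exp (-(h a * lam a)))) := by
  classical
  unfold dens
  rw [if_pos hl]

/-- PROOF.  The density vanishes elsewhere. -/
theorem mu_pos (h : Fin (n + 1) → ℕ) : ∀ᵐ lam ∂(mu h), ∀ a, 0 < lam a := by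
  unfold mu
  rw [ae_withDensity_iff (dens_meas h)]
  refine Filter.Eventually.of_forall fun lam hl => ?_
  by_contra hcon
  exact hl (dens_eq_zero h lam hcon)

/-- PROOF.  The marginal of `lam x` is exponential: `P(h x * lam x < δ) = 1 - e^{-δ} ≤ δ`. -/
theorem mu_tail (h : Fin (n + 1) → ℕ) (hh : ∀ a, 1 ≤ h a) (x : Fin (n + 1)) (δ : ℝ)
    (hδ : 0 ≤ δ) : mu h {lam | (h x : ℝ) * lam x < δ} ≤ ENNReal.ofReal δ := by
  classical
  have hx : (0 : ℝ) < h x := by exact_mod_cast hh x
  have hm : MeasurableSet {lam : Fin (n + 1) → ℝ | (h x : ℝ) * lam x < δ} :=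
    measurableSet_lt (measurable_const.mul (measurable_pi_apply x)) measurable_const
  unfold mu
  rw [withDensity_apply _ hm, ← lintegral_indicator hm]
  have hg : ∀ a, Measurable (fun t : ℝ => if a = x then
      (Set.Ioo (0 : ℝ) (δ / h x)).indicator (fun _ => ENNReal.ofReal (h x)) t
      else den1 (h a) t) := by
    intro a
    by_cases ha : a = x
    · simp only [ha, if_true]
      exact measurable_const.indicator measurableSet_Ioo
    · simp only [ha, if_false]
      exact den1_meas (h a)
  have hle : ∀ lam : Fin (n + 1) → ℝ,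
      {lam : Fin (n + 1) → ℝ | (h x : ℝ) * lam x < δ}.indicator (dens h) lam ≤
      ∏ a, (if a = x then
        (Set.Ioo (0 : ℝ) (δ / h x)).indicator (fun _ => ENNReal.ofReal (h x)) (lam a)
        else den1 (h a) (lam a)) := by
    intro lam
    by_cases hlam : (h x : ℝ) * lam x < δ
    · rw [Set.indicator_of_mem (show lam ∈ {lam : Fin (n + 1) → ℝ | (h x : ℝ) * lam x < δ} from
        hlam), dens_eq]
      refine Finset.prod_le_prod' fun a _ => ?_
      by_cases ha : a = x
      · subst ha
        rw [if_pos rfl]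
        unfold den1
        by_cases h0 : 0 < lam a
        · rw [Set.indicator_of_mem (show lam a ∈ Set.Ioi (0 : ℝ) from h0),
            Set.indicator_of_mem (show lam a ∈ Set.Ioo (0 : ℝ) (δ / h a) from
              ⟨h0, by rw [lt_div_iff₀ hx]; linarith⟩)]
          refine ENNReal.ofReal_le_ofReal ?_
          have : Real.exp (-((h a : ℝ) * lam a)) ≤ 1 := Real.exp_le_one_iff.2 (by
            have : 0 < (h a : ℝ) * lam a := mul_pos hx h0
            linarith)
          nlinarith
        · rw [Set.indicator_of_notMem (show lam a ∉ Set.Ioi (0 : ℝ) from h0)]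
          exact zero_le
      · rw [if_neg ha]
    · rw [Set.indicator_of_notMem (show lam ∉ {lam : Fin (n + 1) → ℝ | (h x : ℝ) * lam x < δ} from
        hlam)]
      exact zero_le
  refine (lintegral_mono hle).trans ?_
  rw [lint_prod (n + 1) (fun a t => if a = x then
      (Set.Ioo (0 : ℝ) (δ / h x)).indicator (fun _ => ENNReal.ofReal (h x)) t
      else den1 (h a) t) hg]
  have hprod : ∏ a, ∫⁻ t, (if a = x then
      (Set.Ioo (0 : ℝ) (δ / h x)).indicator (fun _ => ENNReal.ofReal (h x)) t
      else den1 (h a) t) = ∏ a, (if a = x then ENNReal.ofReal δ else 1) := by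
    refine Finset.prod_congr rfl fun a _ => ?_
    by_cases ha : a = x
    · simp only [ha, if_true]
      rw [lintegral_indicator measurableSet_Ioo, setLIntegral_const, Real.volume_Ioo, sub_zero,
        ← ENNReal.ofReal_mul hx.le]
      congr 1
      field_simp
    · simp only [ha, if_false]
      exact den1_int (h a) (hh a)
  rw [hprod, Finset.prod_ite_eq' Finset.univ x]
  simp

/-- PROOF.  The density is positive on the open positive orthant. -/
theorem ae_of_mu (h : Fin (n + 1) → ℕ) (hh : ∀ a, 1 ≤ h a) (P : (Fin (n + 1) → ℝ) → Prop)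
    (hP : ∀ᵐ lam ∂(mu h), P lam) : ∀ᵐ lam ∂(volume : Measure (Fin (n + 1) → ℝ)),
      (∀ a, 0 < lam a) → P lam := by
  unfold mu at hP
  rw [ae_withDensity_iff (dens_meas h)] at hP
  filter_upwards [hP] with lam hlam hpos
  refine hlam ?_
  rw [dens_pos h lam hpos]
  have h1 : 0 < ∏ a, ((h a : ℝ) * Real.exp (-(h a * lam a))) := by
    refine Finset.prod_pos fun a _ => ?_
    have : (0 : ℝ) < h a := by exact_mod_cast hh a
    positivity
  exact (ENNReal.ofReal_pos.2 h1).ne'

end Pool.Agent.W_ef8234_rv
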