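import Mathlib
import Pool.Agent.W_ef8234_rv.RMeasA

/-! # One step of the Markov chain -/

namespace Pool.Agent.W_ef8234_rv

open MeasureTheory

variable {n : ℕ}

private theorem mb_shear (x y : Fin (n + 1)) (hxy : x ≠ y) :
    MeasurePreserving (fun lam : Fin (n + 1) → ℝ => Function.update lam x (lam x + lam y))
      volume volume := by
  have h1 := Real.volume_preserving_transvectionStruct
    (⟨x, y, hxy, 1⟩ : Matrix.TransvectionStruct (Fin (n + 1)) ℝ)
  have h2 : (fun lam : Fin (n + 1) → ℝ => Function.update lam x (lam x + lam y)) =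
      (Matrix.toLin' (⟨x, y, hxy, 1⟩ : Matrix.TransvectionStruct (Fin (n + 1)) ℝ).toMatrix) := by
    funext lam i
    rw [Matrix.TransvectionStruct.toMatrix_mk, Matrix.toLin'_apply, Matrix.transvection,
      Matrix.add_mulVec, Matrix.one_mulVec, Pi.add_apply]
    by_cases hi : i = x
    · subst hi
      rw [Function.update_self]
      simp [Matrix.mulVec, dotProduct, Matrix.single_apply]
    · rw [Function.update_of_ne hi]
      have : ¬ (x = i) := fun h => hi h.symm
      simp [Matrix.mulVec, dotProduct, Matrix.single_apply, this]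
  rw [h2]
  exact h1

private theorem mb_emb (x y : Fin (n + 1)) (hxy : x ≠ y) :
    MeasurableEmbedding (fun lam : Fin (n + 1) → ℝ => Function.update lam x (lam x + lam y)) := by
  refine Continuous.measurableEmbedding ?_ ?_
  · exact continuous_id.update x ((continuous_apply x).add (continuous_apply y))
  · intro v w hvw
    have h1 : ∀ i, Function.update v x (v x + v y) i = Function.update w x (w x + w y) i :=
      fun i => congrFun hvw i
    have h2 : ∀ i, i ≠ x → v i = w i := by
      intro i hi
      have := h1 i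
      rwa [Function.update_of_ne hi, Function.update_of_ne hi] at this
    funext i
    by_cases hi : i = x
    · subst hi
      have h3 := h1 i
      rw [Function.update_self, Function.update_self, h2 y hxy.symm] at h3
      linarith
    · exact h2 i hi

private theorem mb_dens (h : Fin (n + 1) → ℕ) (hh : ∀ a, 1 ≤ h a) (x y : Fin (n + 1))
    (hxy : x ≠ y) (lam : Fin (n + 1) → ℝ) (hpos : ∀ a, 0 < lam a) :
    dens h (Function.update lam x (lam x + lam y)) =
      ENNReal.ofReal ((h y : ℝ) / (h x + h y)) *
        dens (Function.update h y (h x + h y)) lam := by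
  have hx : (0 : ℝ) < h x := by exact_mod_cast hh x
  have hy : (0 : ℝ) < h y := by exact_mod_cast hh y
  have hpos' : ∀ a, 0 < Function.update lam x (lam x + lam y) a := by
    intro a
    by_cases ha : a = x
    · subst ha
      rw [Function.update_self]
      linarith [hpos a, hpos y]
    · rw [Function.update_of_ne ha]
      exact hpos a
  rw [dens_pos _ _ hpos, dens_pos _ _ hpos', ← ENNReal.ofReal_mul (by positivity)]
  congr 1
  -- isolate the letters `x`, `y`
  have h1 : ∀ f : Fin (n + 1) → ℝ, ∏ a, f a =
      f x * (f y * ∏ a ∈ (Finset.univ.erase x).erase y, f a) := by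
    intro f
    rw [← Finset.mul_prod_erase Finset.univ f (Finset.mem_univ x),
      ← Finset.mul_prod_erase (Finset.univ.erase x) f
        (Finset.mem_erase.2 ⟨hxy.symm, Finset.mem_univ y⟩)]
  rw [h1, h1]
  have h2 : ∏ a ∈ (Finset.univ.erase x).erase y, ((h a : ℝ) *
      Real.exp (-(h a * Function.update lam x (lam x + lam y) a))) =
      ∏ a ∈ (Finset.univ.erase x).erase y,
        (((Function.update h y (h x + h y) a : ℕ) : ℝ) *
          Real.exp (-((Function.update h y (h x + h y) a : ℕ) * lam a))) := by
    refine Finset.prod_congr rfl fun a ha => ?_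
    have ha1 : a ≠ y := (Finset.mem_erase.1 ha).1
    have ha2 : a ≠ x := (Finset.mem_erase.1 (Finset.mem_erase.1 ha).2).1
    rw [Function.update_of_ne ha1, Function.update_of_ne ha2]
  rw [h2, Function.update_self, Function.update_of_ne hxy.symm, Function.update_self,
    Function.update_of_ne hxy]
  have h3 : Real.exp (-((h x : ℝ) * (lam x + lam y))) * Real.exp (-((h y : ℝ) * lam y)) =
      Real.exp (-((h x : ℝ) * lam x)) * Real.exp (-(((h x + h y : ℕ) : ℝ) * lam y)) := by
    rw [← Real.exp_add, ← Real.exp_add]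
    congr 1
    push_cast
    ring
  have h4 : ((h x + h y : ℕ) : ℝ) = h x + h y := by push_cast; ring
  generalize ∏ a ∈ (Finset.univ.erase x).erase y,
        (((Function.update h y (h x + h y) a : ℕ) : ℝ) *
          Real.exp (-((Function.update h y (h x + h y) a : ℕ) * lam a))) = G
  calc (h x : ℝ) * Real.exp (-(h x * (lam x + lam y))) *
        (h y * Real.exp (-(h y * lam y)) * G) =
      h x * h y * (Real.exp (-((h x : ℝ) * (lam x + lam y))) *
        Real.exp (-((h y : ℝ) * lam y))) * G := by ring
    _ = h x * h y * (Real.exp (-((h x : ℝ) * lam x)) *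
        Real.exp (-(((h x + h y : ℕ) : ℝ) * lam y))) * G := by rw [h3]
    _ = h y / (h x + h y) * (h x * Real.exp (-(h x * lam x)) *
        (((h x + h y : ℕ) : ℝ) * Real.exp (-(((h x + h y : ℕ) : ℝ) * lam y)) * G)) := by
      rw [h4]
      have : (h x : ℝ) + h y ≠ 0 := by positivity
      field_simp

/-- PROOF.  Let `E` be the map `lam' ↦ update lam' x (lam' x + lam' y)`, a shear, which preserves
Lebesgue measure (`Real.volume_preserving_transvectionStruct`) and is a homeomorphism.  For
positive `lam'`: `dens h (E lam') = (h y / (h x + h y)) * dens h' lam'` with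
`h' = update h y (h x + h y)`, because
`∏ h * exp (- ∑ h lam' - h x lam' y)` and `∏ h' = ∏ h * (h x + h y) / h y`.  The set
`Q ∩ {lam | 0 < lam, lam y < lam x}` is the image under `E` of
`{lam' | 0 < lam', E lam' ∈ Q}`.  (All statements for arbitrary sets `Q`: use
`withDensity_apply'` (sigma-finite) and the measurable equivalence `E`.) -/
theorem mu_win (h : Fin (n + 1) → ℕ) (hh : ∀ a, 1 ≤ h a) (x y : Fin (n + 1)) (hxy : x ≠ y)
    (Q : Set (Fin (n + 1) → ℝ)) :
    mu h (Q ∩ {lam | lam y < lam x}) =
      ENNReal.ofReal ((h y : ℝ) / (h x + h y)) *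
        mu (Function.update h y (h x + h y))
          {lam | (∀ a, 0 < lam a) ∧ Function.update lam x (lam x + lam y) ∈ Q} := by
  set E : (Fin (n + 1) → ℝ) → (Fin (n + 1) → ℝ) :=
    fun lam => Function.update lam x (lam x + lam y) with hE
  set M : Set (Fin (n + 1) → ℝ) := {lam | 0 < lam x} with hMdef
  set P : Set (Fin (n + 1) → ℝ) := {lam | ∀ a, 0 < lam a} with hPdef
  have hM : MeasurableSet M := measurableSet_lt measurable_const (measurable_pi_apply x)
  have hP : MeasurableSet P := by
    have : P = ⋂ a, {lam : Fin (n + 1) → ℝ | 0 < lam a} := by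
      ext lam
      simp [hPdef]
    rw [this]
    exact MeasurableSet.iInter fun a =>
      measurableSet_lt measurable_const (measurable_pi_apply a)
  have hpre : E ⁻¹' (Q ∩ {lam | lam y < lam x}) = M ∩ E ⁻¹' Q := by
    ext lam
    have h1 : E lam x = lam x + lam y := Function.update_self ..
    have h2 : E lam y = lam y := Function.update_of_ne hxy.symm ..
    simp only [Set.mem_preimage, Set.mem_inter_iff, Set.mem_setOf_eq, h1, h2, hMdef]
    constructor
    · rintro ⟨ha, hb⟩
      exact ⟨by linarith, ha⟩
    · rintro ⟨ha, hb⟩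
      exact ⟨hb, by linarith⟩
  have hset : {lam : Fin (n + 1) → ℝ | (∀ a, 0 < lam a) ∧
      Function.update lam x (lam x + lam y) ∈ Q} = P ∩ E ⁻¹' Q := rfl
  rw [hset]
  unfold mu
  rw [withDensity_apply', withDensity_apply',
    ← (mb_shear x y hxy).setLIntegral_comp_preimage_emb (mb_emb x y hxy)]
  rw [show (fun lam : Fin (n + 1) → ℝ => Function.update lam x (lam x + lam y)) = E from rfl,
    hpre, ← Measure.restrict_restrict hM, ← Measure.restrict_restrict hP,
    ← lintegral_indicator hM, ← lintegral_indicator hP,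
    ← lintegral_const_mul _ ((dens_meas _).indicator hP)]
  refine lintegral_congr fun lam => ?_
  by_cases hlam : lam ∈ P
  · rw [Set.indicator_of_mem hlam, Set.indicator_of_mem (show lam ∈ M from hlam x)]
    exact mb_dens h hh x y hxy lam hlam
  · rw [Set.indicator_of_notMem hlam, mul_zero]
    by_cases hlM : lam ∈ M
    · rw [Set.indicator_of_mem hlM]
      refine dens_eq_zero h _ fun hcon => hlam fun a => ?_
      by_cases ha : a = x
      · rw [ha]; exact hlM
      · have := hcon a
        rwa [Function.update_of_ne ha] at this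
    · rw [Set.indicator_of_notMem hlM]

/-- PROOF.  A hyperplane has Lebesgue measure `0`. -/
theorem mu_tie (h : Fin (n + 1) → ℕ) (x y : Fin (n + 1)) (hxy : x ≠ y) :
    mu h {lam | lam x = lam y} = 0 := by
  refine withDensity_absolutelyContinuous _ _ ?_
  have h1 : {lam : Fin (n + 1) → ℝ | lam x = lam y} =
      (LinearMap.ker ((LinearMap.proj x : (Fin (n + 1) → ℝ) →ₗ[ℝ] ℝ) - LinearMap.proj y) :
        Set (Fin (n + 1) → ℝ)) := by
    ext lam
    simp [sub_eq_zero]
  rw [h1]
  refine Measure.addHaar_submodule _ _ fun htop => ?_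
  have h2 : (Pi.single x 1 : Fin (n + 1) → ℝ) ∈
      LinearMap.ker ((LinearMap.proj x : (Fin (n + 1) → ℝ) →ₗ[ℝ] ℝ) - LinearMap.proj y) := by
    rw [htop]
    trivial
  rw [LinearMap.mem_ker] at h2
  simp [Pi.single_eq_of_ne hxy.symm] at h2

/-- One step of the Markov chain.  PROOF.  `Q` is contained in the union of
`Q ∩ {lam y < lam x}`, `Q ∩ {lam x < lam y}` and the diagonal; `mu_win` twice, `mu_tie`.
`toReal` of finite numbers (`mu_prob`); `update h x (h y + h x)`. -/
theorem mu_split (h : Fin (n + 1) → ℕ) (hh : ∀ a, 1 ≤ h a) (x y : Fin (n + 1)) (hxy : x ≠ y)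
    (Q : Set (Fin (n + 1) → ℝ)) :
    (mu h Q).toReal ≤ (h y : ℝ) / (h x + h y) *
        (mu (Function.update h y (h x + h y))
          {lam | (∀ a, 0 < lam a) ∧ Function.update lam x (lam x + lam y) ∈ Q}).toReal +
      (h x : ℝ) / (h x + h y) *
        (mu (Function.update h x (h y + h x))
          {lam | (∀ a, 0 < lam a) ∧ Function.update lam y (lam y + lam x) ∈ Q}).toReal := by
  have hx : (0 : ℝ) < h x := by exact_mod_cast hh x
  have hy : (0 : ℝ) < h y := by exact_mod_cast hh y
  have hup : ∀ z k, 1 ≤ k → ∀ a, 1 ≤ Function.update h z k a := by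
    intro z k hk a
    by_cases ha : a = z
    · subst ha
      rwa [Function.update_self]
    · rw [Function.update_of_ne ha]
      exact hh a
  haveI := mu_prob h hh
  haveI := mu_prob (Function.update h y (h x + h y)) (hup y _ (by have := hh x; omega))
  haveI := mu_prob (Function.update h x (h y + h x)) (hup x _ (by have := hh x; omega))
  have h1 : mu h Q ≤ mu h (Q ∩ {lam | lam y < lam x}) + mu h (Q ∩ {lam | lam x < lam y}) := by
    have h2 : Q ⊆ (Q ∩ {lam | lam y < lam x}) ∪ (Q ∩ {lam | lam x < lam y}) ∪
        {lam | lam x = lam y} := by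
      intro lam hlam
      rcases lt_trichotomy (lam x) (lam y) with h | h | h
      · exact Or.inl (Or.inr ⟨hlam, h⟩)
      · exact Or.inr h
      · exact Or.inl (Or.inl ⟨hlam, h⟩)
    calc mu h Q ≤ mu h ((Q ∩ {lam | lam y < lam x}) ∪ (Q ∩ {lam | lam x < lam y}) ∪
        {lam | lam x = lam y}) := measure_mono h2
      _ ≤ mu h ((Q ∩ {lam | lam y < lam x}) ∪ (Q ∩ {lam | lam x < lam y})) +
          mu h {lam | lam x = lam y} := measure_union_le _ _
      _ = mu h ((Q ∩ {lam | lam y < lam x}) ∪ (Q ∩ {lam | lam x < lam y})) := by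
        rw [mu_tie h x y hxy, add_zero]
      _ ≤ _ := measure_union_le _ _
  rw [mu_win h hh x y hxy, mu_win h hh y x hxy.symm] at h1
  have h3 := ENNReal.toReal_mono (by
    refine ENNReal.add_ne_top.2 ⟨ENNReal.mul_ne_top ENNReal.ofReal_ne_top (measure_ne_top _ _),
      ENNReal.mul_ne_top ENNReal.ofReal_ne_top (measure_ne_top _ _)⟩) h1
  rw [ENNReal.toReal_add (ENNReal.mul_ne_top ENNReal.ofReal_ne_top (measure_ne_top _ _))
      (ENNReal.mul_ne_top ENNReal.ofReal_ne_top (measure_ne_top _ _)),
    ENNReal.toReal_mul, ENNReal.toReal_mul, ENNReal.toReal_ofReal (by positivity),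
    ENNReal.toReal_ofReal (by positivity)] at h3
  have h4 : (h y : ℝ) + h x = h x + h y := by ring
  rw [h4] at h3
  exact h3

end Pool.Agent.W_ef8234_rv
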