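import Mathlib
import Pool.Agent.W_ef8234_rv.RGood
import Pool.Agent.W_ef8234_rv.RMeasB

/-! # The probability of the bad vectors -/

namespace Pool.Agent.W_ef8234_rv

open MeasureTheory Pool.Agent.W_ef8234_h97

variable {n : ℕ}

/-- The positive vectors which are not good. -/
def Bad (m : ℕ) (δ : ℝ) (σ : RState n) : Set (Fin (n + 1) → ℝ) :=
  {lam | (∀ a, 0 < lam a) ∧ ¬ Good m δ σ lam}

/-- Pull back of a set of vectors under a win of `x` over `y`. -/
def pull (x y : Fin (n + 1)) (Q : Set (Fin (n + 1) → ℝ)) : Set (Fin (n + 1) → ℝ) :=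
  {lam | (∀ a, 0 < lam a) ∧ Function.update lam x (lam x + lam y) ∈ Q}

/-- PROOF.  `Good.swap`. -/
theorem bad_swap (m : ℕ) (δ : ℝ) (σ : RState n) : Bad m δ σ ⊆ Bad m δ σ.swap := by
  rintro lam ⟨h1, h2⟩
  exact ⟨h1, fun h3 => h2 (Good.swap σ lam h3)⟩

/-- PROOF.  If `lam' > 0` and `Good σ.win lam'` then with `lam = update lam' x (lam' x + lam' y)`:
`lam y = lam' y < lam x` and `update lam x (lam x - lam y) = lam'`, so `Good.step` gives
`Good σ lam`. -/
theorem pull_bad (hn : 1 ≤ n) (m : ℕ) (δ : ℝ) (σ : RState n) (h : σ.Valid)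
    (Q : Set (Fin (n + 1) → ℝ)) (hQ : Q ⊆ Bad m δ σ) :
    pull σ.x σ.y Q ⊆ Bad m δ σ.win := by
  rintro lam' ⟨h1, h2⟩
  refine ⟨h1, fun h3 => ?_⟩
  have hxy := x_ne_y hn σ h
  refine (hQ h2).2 (Good.step σ _ ?_ ?_)
  · rw [Function.update_self, Function.update_of_ne hxy.symm]
    linarith [h1 σ.x]
  · rw [Function.update_self, Function.update_of_ne hxy.symm, Function.update_idem,
      add_sub_cancel_right, Function.update_eq_self]
    exact h3

/-- PROOF.  `pull_bad` for `σ.swap` (`bad_swap`; `σ.swap.x = σ.y`). -/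
theorem pull_bad_swap (hn : 1 ≤ n) (m : ℕ) (δ : ℝ) (σ : RState n) (h : σ.Valid)
    (Q : Set (Fin (n + 1) → ℝ)) (hQ : Q ⊆ Bad m δ σ) :
    pull σ.y σ.x Q ⊆ Bad m δ σ.swap.win := by
  exact pull_bad hn m δ σ.swap (valid_swap σ h) Q (hQ.trans (bad_swap m δ σ))

/-- One step: if the shorter letter is on top then the top wins with probability at least `1/2`.
PROOF.  `mu_split` with `x = σ.x`, `y = σ.y`; `P = h y / (h x + h y) ≥ 1/2`; the second term is
at most `(1 - P) A` by `hA` for `σ.swap.win` (`pull_bad_swap`; `σ.swap.win.h =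
update h x (h y + h x)`, `valid_win`, `valid_swap`) and monotonicity of the measure.  So the
measure is at most `P B + (1 - P) A = A - P (A - B) ≤ A - (A - B)/2`. -/
theorem one_step (hn : 1 ≤ n) (m : ℕ) (δ A B : ℝ) (σ : RState n) (h : σ.Valid)
    (hle : σ.h σ.x ≤ σ.h σ.y)
    (hA : ∀ τ : RState n, τ.Valid → (mu τ.h (Bad m δ τ)).toReal ≤ A) (hBA : B ≤ A)
    (Q : Set (Fin (n + 1) → ℝ)) (hQ : Q ⊆ Bad m δ σ)
    (hB : (mu σ.win.h (pull σ.x σ.y Q)).toReal ≤ B) :
    (mu σ.h Q).toReal ≤ A - 1 / 2 * (A - B) := by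
  have h1 := mu_split σ.h h.2 σ.x σ.y (x_ne_y hn σ h) Q
  have h2 : (mu (Function.update σ.h σ.y (σ.h σ.x + σ.h σ.y))
      {lam | (∀ a, 0 < lam a) ∧ Function.update lam σ.x (lam σ.x + lam σ.y) ∈ Q}).toReal ≤ B := hB
  have hv : σ.swap.win.Valid := valid_win hn _ (valid_swap σ h)
  have hfin : mu σ.swap.win.h (Bad m δ σ.swap.win) ≠ ⊤ := by
    have := mu_prob σ.swap.win.h hv.2
    exact measure_ne_top _ _
  have h3 : (mu (Function.update σ.h σ.x (σ.h σ.y + σ.h σ.x))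
      {lam | (∀ a, 0 < lam a) ∧ Function.update lam σ.y (lam σ.y + lam σ.x) ∈ Q}).toReal ≤ A :=
    (ENNReal.toReal_mono hfin (measure_mono (pull_bad_swap hn m δ σ h Q hQ))).trans (hA _ hv)
  have hx : (0 : ℝ) < σ.h σ.x := by exact_mod_cast h.2 σ.x
  have hy : (0 : ℝ) < σ.h σ.y := by exact_mod_cast h.2 σ.y
  have hle' : (σ.h σ.x : ℝ) ≤ σ.h σ.y := by exact_mod_cast hle
  have hP : 1 / 2 ≤ (σ.h σ.y : ℝ) / (σ.h σ.x + σ.h σ.y) := by
    rw [div_le_div_iff₀ (by norm_num) (by positivity)]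
    linarith
  have hR : (σ.h σ.x : ℝ) / (σ.h σ.x + σ.h σ.y) =
      1 - (σ.h σ.y : ℝ) / (σ.h σ.x + σ.h σ.y) := by
    field_simp
    ring
  have h4 : 0 ≤ (σ.h σ.x : ℝ) / (σ.h σ.x + σ.h σ.y) := by positivity
  have h5 : 0 ≤ (σ.h σ.y : ℝ) / (σ.h σ.x + σ.h σ.y) := by positivity
  have h6 := mul_le_mul_of_nonneg_left h2 h5
  have h7 := mul_le_mul_of_nonneg_left h3 h4
  rw [hR] at h7 h1
  nlinarith

/-- Iterated pull back along wins of the top letter. -/
noncomputable def pulls : ℕ → RState n → Set (Fin (n + 1) → ℝ) → Set (Fin (n + 1) → ℝ)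
  | 0, _, Q => Q
  | j + 1, σ, Q => pulls j σ.win (pull σ.x σ.y Q)

/-- PROOF.  Induction on `j`, `pull_bad`, `valid_win`. -/
theorem pulls_bad (hn : 1 ≤ n) (m : ℕ) (δ : ℝ) (j : ℕ) (σ : RState n) (h : σ.Valid)
    (Q : Set (Fin (n + 1) → ℝ)) (hQ : Q ⊆ Bad m δ σ) :
    pulls j σ Q ⊆ Bad m δ (RState.win^[j] σ) := by
  induction j generalizing σ Q with
  | zero => exact hQ
  | succ j ih =>
    rw [Function.iterate_succ_apply]
    exact ih σ.win (valid_win hn σ h) _ (pull_bad hn m δ σ h Q hQ)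

/-- PROOF.  Induction on `j`: `one_step` with `B := A - (1/2)^j (A - B)` for the state `σ.win`
(`Function.iterate_succ_apply`: `win^[j+1] σ = win^[j] (win σ)`, `win_x`). -/
theorem streak (hn : 1 ≤ n) (m : ℕ) (δ A B : ℝ)
    (hA : ∀ τ : RState n, τ.Valid → (mu τ.h (Bad m δ τ)).toReal ≤ A) (hBA : B ≤ A)
    (j : ℕ) (σ : RState n) (h : σ.Valid)
    (hle : ∀ i < j, (RState.win^[i] σ).h σ.x ≤ (RState.win^[i] σ).h ((RState.win^[i] σ).y))
    (Q : Set (Fin (n + 1) → ℝ)) (hQ : Q ⊆ Bad m δ σ)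
    (hB : (mu (RState.win^[j] σ).h (pulls j σ Q)).toReal ≤ B) :
    (mu σ.h Q).toReal ≤ A - (1 / 2) ^ j * (A - B) := by
  induction j generalizing σ Q with
  | zero =>
    have h1 : (mu σ.h Q).toReal ≤ B := hB
    rw [pow_zero, one_mul]
    linarith
  | succ j ih =>
    rw [Function.iterate_succ_apply] at hB
    have hv := valid_win hn σ h
    have h1 : (mu σ.win.h (pull σ.x σ.y Q)).toReal ≤ A - (1 / 2) ^ j * (A - B) := by
      refine ih σ.win hv (fun i hi => ?_) _ (pull_bad hn m δ σ h Q hQ) hB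
      have h2 := hle (i + 1) (by omega)
      rw [Function.iterate_succ_apply] at h2
      exact h2
    have h3 : (0 : ℝ) ≤ (1 / 2) ^ j * (A - B) :=
      mul_nonneg (by positivity) (by linarith)
    have h4 := one_step hn m δ A (A - (1 / 2) ^ j * (A - B)) σ h (hle 0 (by omega)) hA
      (by linarith) Q hQ h1
    refine h4.trans (le_of_eq ?_)
    rw [pow_succ]
    ring

/-- PROOF.  Induction on `j`: `pulls (j+1) σ Q = pulls j σ.win (pull x y Q)`; for
`lam` in it, by induction `update lam x (lam x + ∑_{i<j} lam (y_{i+1})) ∈ pull x y Q`, and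
`y_0 ≠ x`. (`j = 0`: `Q ⊆ Bad` gives positivity, and `update lam x (lam x + 0) = lam`.) -/
theorem pulls_explicit (hn : 1 ≤ n) (m : ℕ) (δ : ℝ) (j : ℕ) (σ : RState n) (h : σ.Valid)
    (Q : Set (Fin (n + 1) → ℝ)) (hQ : Q ⊆ Bad m δ σ) (lam : Fin (n + 1) → ℝ)
    (hlam : lam ∈ pulls j σ Q) :
    (∀ a, 0 < lam a) ∧ Function.update lam σ.x
      (lam σ.x + ∑ i ∈ Finset.range j, lam ((RState.win^[i] σ).y)) ∈ Q := by
  induction j generalizing σ Q lam with
  | zero =>
    have h1 : lam ∈ Q := hlam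
    refine ⟨(hQ h1).1, ?_⟩
    rw [Finset.range_zero, Finset.sum_empty, add_zero, Function.update_eq_self]
    exact h1
  | succ j ih =>
    have hxy := x_ne_y hn σ h
    obtain ⟨h1, h2⟩ := ih σ.win (valid_win hn σ h) _ (pull_bad hn m δ σ h Q hQ) lam hlam
    refine ⟨h1, ?_⟩
    have h3 := h2.2
    rw [win_x, Function.update_self, Function.update_of_ne hxy.symm, Function.update_idem] at h3
    rw [Finset.sum_range_succ']
    simp only [Function.iterate_succ_apply, Function.iterate_zero, id_eq]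
    rw [← add_assoc]
    exact h3

end Pool.Agent.W_ef8234_rv
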