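import Mathlib
import Pool.Agent.W_ef8234_rv.RComb

/-! # The losers of consecutive wins -/

namespace Pool.Agent.W_ef8234_rv

open Pool.Agent.W_ef8234_h97

variable {n : ℕ}

private theorem rl_val (c P : Fin (n + 1)) : ((rotFun c P : Fin (n + 1)) : ℕ) =
    if (P : ℕ) ≤ c then (P : ℕ) else if (P : ℕ) = n then (c : ℕ) + 1 else (P : ℕ) + 1 := by
  unfold rotFun
  by_cases h1 : P ≤ c
  · have h1' : (P : ℕ) ≤ c := h1
    rw [dif_pos h1, if_pos h1']
  · have h1' : ¬ (P : ℕ) ≤ c := h1
    rw [dif_neg h1, if_neg h1']
    split_ifs <;> rfl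

private theorem rl_iter (c P : Fin (n + 1)) (hP : (c : ℕ) < P) (i : ℕ) (hi : (P : ℕ) + i ≤ n) :
    (((rotFun c)^[i] P : Fin (n + 1)) : ℕ) = P + i := by
  induction i with
  | zero => rfl
  | succ i ih =>
    have h1 := ih (by omega)
    rw [Function.iterate_succ_apply', rl_val, h1, if_neg (by omega), if_neg (by omega)]
    omega

private theorem rl_period (c P : Fin (n + 1)) : (rotFun c)^[n - (c : ℕ)] P = P := by
  by_cases hP : (P : ℕ) ≤ c
  · refine Function.iterate_fixed (Fin.ext ?_) _
    rw [rl_val, if_pos hP]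
  · have hPn : (P : ℕ) ≤ n := by omega
    have h1 : n - (c : ℕ) = ((P : ℕ) - c - 1) + (1 + (n - P)) := by omega
    rw [h1, Function.iterate_add_apply, Function.iterate_add_apply]
    have h2 : (((rotFun c)^[n - (P : ℕ)] P : Fin (n + 1)) : ℕ) = n := by
      rw [rl_iter c P (by omega) _ (by omega)]
      omega
    have h3 : (((rotFun c)^[1] ((rotFun c)^[n - (P : ℕ)] P) : Fin (n + 1)) : ℕ) = c + 1 := by
      rw [Function.iterate_one, rl_val, h2, if_neg (by omega), if_pos rfl]
    refine Fin.ext ?_
    rw [rl_iter c _ (by omega) _ (by omega), h3]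
    omega

private theorem rl_period_mul (c P : Fin (n + 1)) (m : ℕ) :
    (rotFun c)^[m * (n - (c : ℕ))] P = P := by
  rw [mul_comm, Function.iterate_mul]
  exact Function.iterate_fixed (rl_period c P) m

private theorem rl_t (σ : RState n) (i : ℕ) : (RState.win^[i] σ).t = σ.t := by
  induction i with
  | zero => rfl
  | succ i ih =>
    rw [Function.iterate_succ_apply']
    exact ih

private theorem rl_x (σ : RState n) (i : ℕ) : (RState.win^[i] σ).x = σ.x := by
  unfold RState.x
  rw [rl_t]

private theorem rl_b (σ : RState n) (i : ℕ) (a : Fin (n + 1)) :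
    (RState.win^[i] σ).b a = (rotFun (σ.b σ.x))^[i] (σ.b a) := by
  induction i generalizing a with
  | zero => rfl
  | succ i ih =>
    rw [Function.iterate_succ_apply', Function.iterate_succ_apply', ← ih a]
    have h1 : (RState.win^[i] σ).b (RState.win^[i] σ).x = σ.b σ.x := by
      rw [rl_x, ih]
      refine Function.iterate_fixed (Fin.ext ?_) _
      rw [rl_val, if_pos le_rfl]
    show rotFun ((RState.win^[i] σ).b (RState.win^[i] σ).x) ((RState.win^[i] σ).b a) = _
    rw [h1]

private theorem rl_y (σ : RState n) (i : ℕ) :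
    (rotFun (σ.b σ.x))^[i] (σ.b (RState.win^[i] σ).y) = Fin.last n := by
  rw [← rl_b]
  unfold RState.y
  exact Equiv.apply_symm_apply _ _

/-- The losers of consecutive wins of the top letter.  PROOF.  With `c = σ.b σ.x`:
`(win^[i] σ).b a = (rot c)^i (σ.b a)` (induction, `win_x`, `win_b_x`), and
`(rot c)^i` maps the position `n - i` to the last position `n` if `c < n - i`
(`i < n - c` steps to the right). -/
theorem loser_lt (σ : RState n) (i : ℕ) (hi : i < n - (σ.b σ.x : ℕ)) :
    ((σ.b ((RState.win^[i] σ).y) : Fin (n + 1)) : ℕ) = n - i := by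
  have h1 : (rotFun (σ.b σ.x))^[i] (⟨n - i, by omega⟩ : Fin (n + 1)) = Fin.last n := by
    refine Fin.ext ?_
    rw [rl_iter _ _ (show ((σ.b σ.x : Fin (n + 1)) : ℕ) < n - i by omega) _
      (show n - i + i ≤ n by omega)]
    show n - i + i = n
    omega
  have h2 := (rotFun_injective (σ.b σ.x)).iterate i ((rl_y σ i).trans h1.symm)
  rw [h2]

/-- PROOF.  After `k = n - c` wins every position is back: a position `P` with `c < P ≤ n` becomes
`n` after `n - P` steps, then `c + 1`, then `P` after `P - c - 1` more steps: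
`n - P + 1 + (P - c - 1) = k`. -/
theorem win_period_b (σ : RState n) :
    (RState.win^[n - (σ.b σ.x : ℕ)] σ).b = σ.b ∧ (RState.win^[n - (σ.b σ.x : ℕ)] σ).t = σ.t := by
  refine ⟨Equiv.ext fun a => ?_, rl_t σ _⟩
  rw [rl_b, rl_period]

private theorem rl_y_period (σ : RState n) (m j : ℕ) :
    (RState.win^[m * (n - (σ.b σ.x : ℕ)) + j] σ).y = (RState.win^[j] σ).y := by
  unfold RState.y
  have h : (RState.win^[m * (n - (σ.b σ.x : ℕ)) + j] σ).b = (RState.win^[j] σ).b := by
    refine Equiv.ext fun a => ?_
    rw [rl_b, rl_b, Function.iterate_add_apply, rl_period_mul]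
  rw [h]

/-- PROOF.  `loser_lt` and `win_period_b` (the loser depends only on the rows `t`, `b`): the first
`k = n - c` losers are exactly the letters after `x` in the bottom row, each once, and the
sequence of losers is periodic with period `k`. -/
theorem loser_sum (σ : RState n) (m : ℕ) (lam : Fin (n + 1) → ℝ) :
    ∑ i ∈ Finset.range (m * (n - (σ.b σ.x : ℕ))), lam ((RState.win^[i] σ).y) =
      m * sufS σ.b lam σ.x := by
  have hone : ∑ i ∈ Finset.range (n - (σ.b σ.x : ℕ)), lam ((RState.win^[i] σ).y) =
      sufS σ.b lam σ.x := by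
    unfold sufS
    rw [← Finset.sum_filter]
    refine Finset.sum_bij' (fun i _ => (RState.win^[i] σ).y)
      (fun a _ => n - ((σ.b a : Fin (n + 1)) : ℕ)) ?_ ?_ ?_ ?_ ?_
    · intro i hi
      have hi' := Finset.mem_range.1 hi
      rw [Finset.mem_filter]
      refine ⟨Finset.mem_univ _, ?_⟩
      rw [Fin.lt_def, loser_lt σ i hi']
      omega
    · intro a ha
      have ha' := (Finset.mem_filter.1 ha).2
      rw [Fin.lt_def] at ha'
      rw [Finset.mem_range]
      omega
    · intro i hi
      have hi' := Finset.mem_range.1 hi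
      show n - ((σ.b ((RState.win^[i] σ).y) : Fin (n + 1)) : ℕ) = i
      rw [loser_lt σ i hi']
      omega
    · intro a ha
      have ha' := (Finset.mem_filter.1 ha).2
      rw [Fin.lt_def] at ha'
      apply σ.b.injective
      refine Fin.ext ?_
      show ((σ.b ((RState.win^[n - ((σ.b a : Fin (n + 1)) : ℕ)] σ).y) : Fin (n + 1)) : ℕ) = _
      rw [loser_lt σ _ (by omega)]
      omega
    · intro i _
      rfl
  induction m with
  | zero => simp
  | succ m ih =>
    rw [add_mul, one_mul, Finset.sum_range_add, ih]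
    simp only [rl_y_period]
    rw [hone]
    push_cast
    ring

/-- PROOF.  By `loser_lt` the losers `y_j`, `j < i < n - c`, are different from `y_i`, so its
height has not changed before the step `i`. -/
theorem loser_height (σ : RState n) (i : ℕ) (hi : i < n - (σ.b σ.x : ℕ)) :
    (RState.win^[i] σ).h ((RState.win^[i] σ).y) = σ.h ((RState.win^[i] σ).y) := by
  have key : ∀ j ≤ i, (RState.win^[j] σ).h ((RState.win^[i] σ).y) =
      σ.h ((RState.win^[i] σ).y) := by
    intro j hj
    induction j with
    | zero => rfl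
    | succ j ih =>
      have h1 := ih (by omega)
      have h2 : (RState.win^[i] σ).y ≠ (RState.win^[j] σ).y := by
        intro h
        have h3 := loser_lt σ i hi
        rw [h, loser_lt σ j (by omega)] at h3
        omega
      rw [Function.iterate_succ_apply']
      show Function.update (RState.win^[j] σ).h (RState.win^[j] σ).y _ _ = _
      rw [Function.update_of_ne h2, h1]
  exact key i le_rfl

end Pool.Agent.W_ef8234_rv
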