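import Mathlib
import Pool.Agent.W_ef8234_rv.RBad
import Pool.Agent.W_ef8234_rv.RLoser

/-! # Full turns -/

namespace Pool.Agent.W_ef8234_rv

open MeasureTheory Pool.Agent.W_ef8234_h97

variable {n : ℕ}

/-- Positions up to the one of `x` never change. -/
private theorem rt_b (hn : 1 ≤ n) (σ : RState n) (h : σ.Valid) (a : Fin (n + 1))
    (ha : σ.b a ≤ σ.b σ.x) (i : ℕ) : (RState.win^[i] σ).b a = σ.b a := by
  have hx : ∀ i, (RState.win^[i] σ).b σ.x = σ.b σ.x := by
    intro i
    induction i with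
    | zero => rfl
    | succ i ih =>
      rw [Function.iterate_succ_apply']
      have h1 := win_b_x (RState.win^[i] σ)
      rw [(win_iter hn σ h i).2.1] at h1
      rw [h1, ih]
  induction i with
  | zero => rfl
  | succ i ih =>
    rw [Function.iterate_succ_apply']
    show rot ((RState.win^[i] σ).b (RState.win^[i] σ).x) ((RState.win^[i] σ).b a) = _
    rw [(win_iter hn σ h i).2.1, hx, ih]
    exact rot_of_le _ _ ha

/-- The losers are after `x` in the bottom row. -/
private theorem rt_after (hn : 1 ≤ n) (σ : RState n) (h : σ.Valid) (i : ℕ) :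
    σ.b σ.x < σ.b ((RState.win^[i] σ).y) := by
  by_contra hcon
  push Not at hcon
  have h1 := rt_b hn σ h _ hcon i
  have h2 : (RState.win^[i] σ).b ((RState.win^[i] σ).y) = Fin.last n :=
    Equiv.apply_symm_apply _ _
  rw [h2] at h1
  rw [← h1] at hcon
  have h3 : σ.b σ.x = Fin.last n := le_antisymm (Fin.le_last _) hcon
  have h4 := suffix_pos hn σ h
  rw [h3] at h4
  have h5 : ((Fin.last n : Fin (n + 1)) : ℕ) = n := rfl
  omega

/-- All opponents are at least as tall as `x`: `m` full turns.  PROOF.  Let `k = n - b x`,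
`j = m k`.  `streak` with `B = δ`: the opponents have `(win^[i] σ).h y_i ≥ σ.h y_i ≥ h x`
(`win_iter`; `y_i` is after `x` in the bottom row: `loser_lt` and periodicity, or: if a letter has
`(win^[i] σ).b a = n` then `σ.b a > σ.b x`, since positions `≤ b x` never change).
Final bound: `lam ∈ pulls j σ Q` gives (`pulls_explicit`, `loser_sum`) that
`lam'' = update lam x (lam x + m S)`, `S = sufS b lam x = sufS b lam'' x`, is not good; so
`h x * lam'' x < δ` because `m S ≤ lam'' x`; hence `h x * lam x < δ`, and `mu_tail` for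
`(win^[j] σ).h` (same height at `x`).  Here `1/2 ≤ 1` and `j ≤ m n`. -/
theorem terminal (hn : 1 ≤ n) (m : ℕ) (δ A : ℝ) (hδ : 0 ≤ δ) (hδA : δ ≤ A)
    (hA : ∀ τ : RState n, τ.Valid → (mu τ.h (Bad m δ τ)).toReal ≤ A)
    (σ : RState n) (h : σ.Valid) (hle : ∀ a, σ.b σ.x < σ.b a → σ.h σ.x ≤ σ.h a)
    (Q : Set (Fin (n + 1) → ℝ)) (hQ : Q ⊆ Bad m δ σ) :
    (mu σ.h Q).toReal ≤ A - (1 / 2) ^ (m * n) * (A - δ) := by
  obtain ⟨k, hk⟩ : ∃ k, k = n - (σ.b σ.x : ℕ) := ⟨_, rfl⟩
  have hkn : k ≤ n := by omega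
  have hB : (mu (RState.win^[m * k] σ).h (pulls (m * k) σ Q)).toReal ≤ δ := by
    obtain ⟨v1, v2, v3, v4⟩ := win_iter hn σ h (m * k)
    have hsub : pulls (m * k) σ Q ⊆
        {lam | ((RState.win^[m * k] σ).h σ.x : ℝ) * lam σ.x < δ} := by
      intro lam hlam
      obtain ⟨h1, h2⟩ := pulls_explicit hn m δ (m * k) σ h Q hQ lam hlam
      rw [hk, loser_sum] at h2
      have h3 := (hQ h2).2
      have hS0 : 0 ≤ sufS σ.b lam σ.x := by
        refine Finset.sum_nonneg fun i _ => ?_
        split_ifs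
        · exact (h1 i).le
        · exact le_rfl
      have hSeq : sufS σ.b (Function.update lam σ.x (lam σ.x + m * sufS σ.b lam σ.x)) σ.x =
          sufS σ.b lam σ.x := by
        refine Finset.sum_congr rfl fun i _ => ?_
        split_ifs with hi
        · rw [Function.update_of_ne]
          rintro rfl
          exact lt_irrefl _ hi
        · rfl
      show ((RState.win^[m * k] σ).h σ.x : ℝ) * lam σ.x < δ
      rw [v3]
      by_contra hcon
      push Not at hcon
      refine h3 (Good.succ _ _ ?_ ?_)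
      · rw [hSeq, Function.update_self]
        linarith [h1 σ.x]
      · rw [Function.update_self]
        have h4 : (0 : ℝ) ≤ (σ.h σ.x : ℝ) * (m * sufS σ.b lam σ.x) := by positivity
        nlinarith
    have h1 := (measure_mono hsub).trans (mu_tail (RState.win^[m * k] σ).h v1.2 σ.x δ hδ)
    have h2 := ENNReal.toReal_mono ENNReal.ofReal_ne_top h1
    rwa [ENNReal.toReal_ofReal hδ] at h2
  have h1 := streak hn m δ A δ hA hδA (m * k) σ h (fun i _ => by
    obtain ⟨v1, v2, v3, v4⟩ := win_iter hn σ h i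
    rw [v3]
    exact (hle _ (rt_after hn σ h i)).trans (v4 _)) Q hQ hB
  refine h1.trans ?_
  have h2 : ((1 : ℝ) / 2) ^ (m * n) ≤ (1 / 2) ^ (m * k) :=
    pow_le_pow_of_le_one (by norm_num) (by norm_num) (Nat.mul_le_mul_left m hkn)
  have h3 := mul_le_mul_of_nonneg_right h2 (by linarith : 0 ≤ A - δ)
  linarith

end Pool.Agent.W_ef8234_rv
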