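import Mathlib
import Pool.Agent.W_ef8234_rv.RTerm

/-! # The greedy path -/

namespace Pool.Agent.W_ef8234_rv

open MeasureTheory Pool.Agent.W_ef8234_h97

variable {n : ℕ}

private theorem rg_pow {a b : ℕ} (hab : a ≤ b) {A δ : ℝ} (hδA : δ ≤ A) :
    A - (1 / 2 : ℝ) ^ a * (A - δ) ≤ A - (1 / 2 : ℝ) ^ b * (A - δ) := by
  have h1 : (1 / 2 : ℝ) ^ b ≤ (1 / 2 : ℝ) ^ a :=
    pow_le_pow_of_le_one (by norm_num) (by norm_num) hab
  have h2 := mul_le_mul_of_nonneg_right h1 (sub_nonneg.2 hδA)
  linarith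

/-- PROOF.  Induction on `r`, the number of letters shorter than `x`.  If all letters after `x` in
the bottom row are at least as tall as `x`: `terminal`, and `m n ≤ (r+1)(m n + n)`.
Otherwise let `i` be the least index `< k = n - b x` with `σ.h (y_i) < σ.h x`, where
`y_i = (win^[i] σ).y` (`loser_lt`: the `y_i`, `i < k`, are the letters after `x`).  For `i' < i`
the opponent is at least as tall (`win_iter`).  Apply `streak` with `j = i` and
`B = A - (1/2)^(r (m n + n)) (A - δ)`, which is the induction hypothesis for the state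
`τ = (win^[i] σ).swap`, whose top letter is `y_i`, with height `σ.h y_i < σ.h x`
(`loser_height`); `τ` has at most `r - 1` letters shorter than `y_i` (heights only grow; `y_i`
itself was counted); the set is `pulls i σ Q ⊆ Bad (win^[i] σ) ⊆ Bad τ` (`pulls_bad`,
`bad_swap`).  Exponents: `i ≤ n`, `i + r (m n + n) ≤ (r+1)(m n + n)`. -/
theorem greedy (hn : 1 ≤ n) (m : ℕ) (δ A : ℝ) (hδ : 0 ≤ δ) (hδA : δ ≤ A)
    (hA : ∀ τ : RState n, τ.Valid → (mu τ.h (Bad m δ τ)).toReal ≤ A) (r : ℕ)
    (σ : RState n) (h : σ.Valid) (hle : σ.h σ.x ≤ σ.h σ.y)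
    (hr : (Finset.univ.filter (fun a => σ.h a < σ.h σ.x)).card ≤ r)
    (Q : Set (Fin (n + 1) → ℝ)) (hQ : Q ⊆ Bad m δ σ) :
    (mu σ.h Q).toReal ≤ A - (1 / 2) ^ ((r + 1) * (m * n + n)) * (A - δ) := by
  induction r generalizing σ Q with
  | zero =>
    have hall : ∀ a, σ.b σ.x < σ.b a → σ.h σ.x ≤ σ.h a := by
      intro a _
      by_contra hcon
      have h1 : a ∈ Finset.univ.filter (fun a => σ.h a < σ.h σ.x) := by
        rw [Finset.mem_filter]
        exact ⟨Finset.mem_univ _, not_le.1 hcon⟩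
      have h2 := Finset.card_pos.2 ⟨a, h1⟩
      omega
    refine (terminal hn m δ A hδ hδA hA σ h hall Q hQ).trans (rg_pow ?_ hδA)
    omega
  | succ r ih =>
    by_cases hall : ∀ a, σ.b σ.x < σ.b a → σ.h σ.x ≤ σ.h a
    · refine (terminal hn m δ A hδ hδA hA σ h hall Q hQ).trans (rg_pow ?_ hδA)
      nlinarith [Nat.zero_le (m * n)]
    · push Not at hall
      obtain ⟨a, ha1, ha2⟩ := hall
      have hex : ∃ i, i < n - (σ.b σ.x : ℕ) ∧ σ.h ((RState.win^[i] σ).y) < σ.h σ.x := by
        have ha1' : (σ.b σ.x : ℕ) < σ.b a := ha1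
        have ha3 : (σ.b a : ℕ) ≤ n := by omega
        refine ⟨n - (σ.b a : ℕ), by omega, ?_⟩
        have h1 : (RState.win^[n - (σ.b a : ℕ)] σ).y = a := by
          apply σ.b.injective
          refine Fin.ext ?_
          rw [loser_lt σ _ (by omega)]
          omega
        rw [h1]
        exact ha2
      classical
      obtain ⟨hi1, hi2⟩ := Nat.find_spec hex
      have hmin : ∀ j < Nat.find hex, ¬ (j < n - (σ.b σ.x : ℕ) ∧
          σ.h ((RState.win^[j] σ).y) < σ.h σ.x) := fun j hj => Nat.find_min hex hj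
      generalize Nat.find hex = i at hi1 hi2 hmin
      obtain ⟨hv1, hv2, hv3, hv4⟩ := win_iter hn σ h i
      have hlh := loser_height σ i hi1
      -- the state τ
      have hτv : (RState.win^[i] σ).swap.Valid := valid_swap _ hv1
      have hτx : (RState.win^[i] σ).swap.x = (RState.win^[i] σ).y := rfl
      have hτy : (RState.win^[i] σ).swap.y = (RState.win^[i] σ).x := rfl
      have hτh : (RState.win^[i] σ).swap.h = (RState.win^[i] σ).h := rfl
      have hτle : (RState.win^[i] σ).swap.h (RState.win^[i] σ).swap.x ≤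
          (RState.win^[i] σ).swap.h (RState.win^[i] σ).swap.y := by
        rw [hτx, hτy, hτh, hlh, hv2, hv3]
        exact hi2.le
      have hτr : (Finset.univ.filter (fun a => (RState.win^[i] σ).swap.h a <
          (RState.win^[i] σ).swap.h (RState.win^[i] σ).swap.x)).card ≤ r := by
        rw [hτx, hτh, hlh]
        have hlt : (Finset.univ.filter (fun a => (RState.win^[i] σ).h a <
            σ.h (RState.win^[i] σ).y)).card <
            (Finset.univ.filter (fun a => σ.h a < σ.h σ.x)).card := by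
          refine Finset.card_lt_card ?_
          rw [Finset.ssubset_iff_of_subset]
          · refine ⟨(RState.win^[i] σ).y, ?_, ?_⟩
            · rw [Finset.mem_filter]
              exact ⟨Finset.mem_univ _, hi2⟩
            · rw [Finset.mem_filter]
              rintro ⟨-, h1⟩
              rw [hlh] at h1
              exact lt_irrefl _ h1
          · intro c hc
            rw [Finset.mem_filter] at hc ⊢
            refine ⟨Finset.mem_univ _, ?_⟩
            exact lt_of_le_of_lt (hv4 c) (hc.2.trans hi2)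
        omega
      have hQ' : pulls i σ Q ⊆ Bad m δ (RState.win^[i] σ).swap :=
        (pulls_bad hn m δ i σ h Q hQ).trans (bad_swap m δ _)
      have hB := ih (RState.win^[i] σ).swap hτv hτle hτr (pulls i σ Q) hQ'
      rw [hτh] at hB
      have hBA : A - (1 / 2) ^ ((r + 1) * (m * n + n)) * (A - δ) ≤ A := by
        have : 0 ≤ (1 / 2 : ℝ) ^ ((r + 1) * (m * n + n)) * (A - δ) :=
          mul_nonneg (by positivity) (sub_nonneg.2 hδA)
        linarith
      have hst := streak hn m δ A _ hA hBA i σ h (fun j hj => by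
        have h1 := hmin j hj
        have h2 : σ.h σ.x ≤ σ.h ((RState.win^[j] σ).y) := by
          by_contra hcon
          exact h1 ⟨by omega, not_le.1 hcon⟩
        obtain ⟨-, -, h3, h4⟩ := win_iter hn σ h j
        rw [h3]
        exact h2.trans (h4 _)) Q hQ hB
      refine hst.trans ?_
      have h3 : A - (1 / 2) ^ i * (A - (A - (1 / 2) ^ ((r + 1) * (m * n + n)) * (A - δ))) =
          A - (1 / 2) ^ (i + (r + 1) * (m * n + n)) * (A - δ) := by
        rw [pow_add]
        ring
      rw [h3]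
      refine rg_pow ?_ hδA
      have h4 : i ≤ n := by omega
      nlinarith [Nat.zero_le (m * n)]

private theorem rg_step (hn : 1 ≤ n) (m : ℕ) (δ A : ℝ) (hδ : 0 ≤ δ) (hδA : δ ≤ A)
    (hA : ∀ τ : RState n, τ.Valid → (mu τ.h (Bad m δ τ)).toReal ≤ A)
    (σ : RState n) (h : σ.Valid) :
    (mu σ.h (Bad m δ σ)).toReal ≤ A - (1 / 2) ^ ((n + 1 + 1) * (m * n + n)) * (A - δ) := by
  have hcard : ∀ s : Finset (Fin (n + 1)), s.card ≤ n + 1 := fun s => by
    have := Finset.card_le_univ s
    simpa using this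
  rcases le_total (σ.h σ.x) (σ.h σ.y) with h1 | h1
  · exact greedy hn m δ A hδ hδA hA (n + 1) σ h h1 (hcard _) _ subset_rfl
  · exact greedy hn m δ A hδ hδA hA (n + 1) σ.swap (valid_swap σ h) h1 (hcard _) _
      (bad_swap m δ σ)

/-- PROOF.  Put `L = (n + 2) (m n + n)` and `c = (1/2)^L`.  If `A ≥ δ` bounds the measure of all
`Bad τ`, so does `A - c (A - δ)`: `greedy` with `r = n + 1` for `σ` if `h x ≤ h y`, else for
`σ.swap` (`bad_swap`, `valid_swap`).  Start with `A = max 1 δ` (`mu_prob`) and iterate: the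
bounds `δ + (1 - c)^j (A₀ - δ)` tend to `δ`. -/
theorem bad_le (hn : 1 ≤ n) (m : ℕ) (δ : ℝ) (hδ : 0 ≤ δ) (σ : RState n) (h : σ.Valid) :
    (mu σ.h (Bad m δ σ)).toReal ≤ δ := by
  obtain ⟨c, hc0, hc1, hstep⟩ : ∃ c : ℝ, 0 < c ∧ c ≤ 1 ∧ ∀ A, δ ≤ A →
      (∀ τ : RState n, τ.Valid → (mu τ.h (Bad m δ τ)).toReal ≤ A) →
      ∀ τ : RState n, τ.Valid → (mu τ.h (Bad m δ τ)).toReal ≤ A - c * (A - δ) :=
    ⟨(1 / 2) ^ ((n + 1 + 1) * (m * n + n)), by positivity,
      pow_le_one₀ (by norm_num) (by norm_num),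
      fun A hA hA' τ hτ => rg_step hn m δ A hδ hA hA' τ hτ⟩
  have hb : ∀ j : ℕ, ∀ τ : RState n, τ.Valid →
      (mu τ.h (Bad m δ τ)).toReal ≤ δ + (1 - c) ^ j * (max 1 δ - δ) := by
    intro j
    induction j with
    | zero =>
      intro τ hτ
      haveI := mu_prob τ.h hτ.2
      rw [pow_zero, one_mul]
      have h1 : (mu τ.h (Bad m δ τ)).toReal ≤ 1 := by
        have h2 := prob_le_one (μ := mu τ.h) (s := Bad m δ τ)
        have h3 := ENNReal.toReal_mono ENNReal.one_ne_top h2
        simpa using h3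
      linarith [le_max_left 1 δ]
    | succ j ih =>
      intro τ hτ
      have h1 : 0 ≤ (1 - c) ^ j * (max 1 δ - δ) :=
        mul_nonneg (pow_nonneg (by linarith) _) (by linarith [le_max_right 1 δ])
      have h2 := hstep (δ + (1 - c) ^ j * (max 1 δ - δ)) (by linarith) ih τ hτ
      refine h2.trans (le_of_eq ?_)
      rw [pow_succ]
      ring
  have hlim : Filter.Tendsto (fun j : ℕ => δ + (1 - c) ^ j * (max 1 δ - δ)) Filter.atTop
      (nhds (δ + 0 * (max 1 δ - δ))) := by
    refine tendsto_const_nhds.add (Filter.Tendsto.mul_const _ ?_)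
    exact tendsto_pow_atTop_nhds_zero_of_lt_one (by linarith) (by linarith)
  rw [zero_mul, add_zero] at hlim
  exact ge_of_tendsto' hlim fun j => hb j σ h

end Pool.Agent.W_ef8234_rv
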