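import Mathlib
import Pool.Agent.W_ef8234_rv.RGreedy
import Pool.Agent.W_ef8234_h97.Nec

/-! # Almost every interval exchange map has fat cylinders of relative displacement tending to 0 -/

namespace Pool.Agent.W_ef8234_rv

open MeasureTheory Pool.Agent.W_ef8234_h97
open scoped Topology

variable {n : ℕ}

private theorem rf_null (hn : 1 ≤ n) (p : Equiv.Perm (Fin (n + 1)))
    (hp : W_ef8234_h97.Irreducible p) (ε : ℝ) (hε : 0 < ε) :
    mu (fun _ : Fin (n + 1) => 1) {l | (∀ a, 0 < l a) ∧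
      ¬ ∃ (X : ℕ → ℝ) (q : ℕ) (w s : ℝ), IsCylinder p l X q w s ∧ s ≠ 0 ∧
        |s| < ε * (q * w ^ 2)} = 0 := by
  have hσ : (⟨1, p, fun _ => 1⟩ : RState n).Valid := ⟨hp, fun _ => le_rfl⟩
  have := mu_prob (fun _ : Fin (n + 1) => 1) (fun _ => le_rfl)
  have h1 : ∀ δ : ℝ, 0 < δ → (mu (fun _ : Fin (n + 1) => 1) {l | (∀ a, 0 < l a) ∧
      ¬ ∃ (X : ℕ → ℝ) (q : ℕ) (w s : ℝ), IsCylinder p l X q w s ∧ s ≠ 0 ∧
        |s| < ε * (q * w ^ 2)}).toReal ≤ δ := by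
    intro δ hδ
    obtain ⟨m, hm⟩ := exists_nat_gt (1 / (δ * ε))
    rw [div_lt_iff₀ (by positivity)] at hm
    refine (ENNReal.toReal_mono (measure_ne_top _ _) (measure_mono ?_)).trans
      (bad_le hn m δ hδ.le ⟨1, p, fun _ => 1⟩ hσ)
    rintro lam ⟨hpos, hno⟩
    refine ⟨hpos, fun hg => hno ?_⟩
    obtain ⟨X, q, w, s, hc, hs, h1, h2⟩ := good_cylinder hn p lam m δ ⟨1, p, fun _ => 1⟩ lam hg
      hσ hpos (Or.inl (tow_root p lam hpos))
    refine ⟨X, q, w, s, hc, hs, ?_⟩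
    have hw := hc.w_pos
    have hm0 : (0 : ℝ) < m := by
      by_contra hcon
      have h3 : (m : ℝ) * (δ * ε) ≤ 0 :=
        mul_nonpos_of_nonpos_of_nonneg (not_lt.1 hcon) (by positivity)
      linarith
    have h3 : (m : ℝ) * |s| < m * (ε * (q * w ^ 2)) := by
      calc (m : ℝ) * |s| ≤ w := h1
        _ = 1 * w := (one_mul w).symm
        _ < (m * (δ * ε)) * w := mul_lt_mul_of_pos_right hm hw
        _ = m * (ε * (δ * w)) := by ring
        _ ≤ m * (ε * ((q * w) * w)) := by gcongr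
        _ = m * (ε * (q * w ^ 2)) := by ring
    exact lt_of_mul_lt_mul_left h3 hm0.le
  have h2 : (mu (fun _ : Fin (n + 1) => 1) {l | (∀ a, 0 < l a) ∧
      ¬ ∃ (X : ℕ → ℝ) (q : ℕ) (w s : ℝ), IsCylinder p l X q w s ∧ s ≠ 0 ∧
        |s| < ε * (q * w ^ 2)}).toReal ≤ 0 := le_of_forall_pos_le_add fun δ hδ => by
    rw [zero_add]
    exact h1 δ hδ
  have h3 := le_antisymm h2 ENNReal.toReal_nonneg
  rw [ENNReal.toReal_eq_zero_iff] at h3
  exact h3.resolve_right (measure_ne_top _ _)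

/-- PROOF.  Fix `ε`.  The set `N` of the positive `l` without such a cylinder: for every `δ > 0`
choose `m` with `m δ ε > 1`; then `N ⊆ Bad m δ σ₀`, `σ₀ = ⟨1, p, 1⟩`, because a good vector has a
cylinder (`good_cylinder`, `tow_root`) with `|s| ≤ w / m` and `q w ≥ δ`, so
`|s| ≤ w (q w) / (m δ) < ε q w^2`.  By `bad_le`, `mu 1 N ≤ δ` for all `δ > 0`.  So for
`mu`-almost all `l`, for all `ε = 1/(k+1)`: conclusion; transfer by `ae_of_mu`.
`σ₀.Valid` is the irreducibility of `p` (`Irreducible` of Defs.lean with `d = n + 1`). -/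
theorem ae_cylinder (hn : 1 ≤ n) (p : Equiv.Perm (Fin (n + 1)))
    (hp : W_ef8234_h97.Irreducible p) :
    ∀ᵐ l ∂(volume : Measure (Fin (n + 1) → ℝ)), (∀ a, 0 < l a) → ∀ ε : ℝ, 0 < ε →
      ∃ (X : ℕ → ℝ) (q : ℕ) (w s : ℝ), IsCylinder p l X q w s ∧ s ≠ 0 ∧
        |s| < ε * (q * w ^ 2) := by
  refine ae_of_mu (fun _ : Fin (n + 1) => 1) (fun _ => le_rfl) (fun l => ∀ ε : ℝ, 0 < ε →
      ∃ (X : ℕ → ℝ) (q : ℕ) (w s : ℝ), IsCylinder p l X q w s ∧ s ≠ 0 ∧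
        |s| < ε * (q * w ^ 2)) ?_
  have h1 : ∀ k : ℕ, ∀ᵐ l ∂(mu (fun _ : Fin (n + 1) => 1)), ¬ ((∀ a, 0 < l a) ∧
      ¬ ∃ (X : ℕ → ℝ) (q : ℕ) (w s : ℝ), IsCylinder p l X q w s ∧ s ≠ 0 ∧
        |s| < (1 / ((k : ℝ) + 1)) * (q * w ^ 2)) := by
    intro k
    have h2 := rf_null hn p hp (1 / ((k : ℝ) + 1)) (by positivity)
    rw [← compl_mem_ae_iff] at h2
    exact h2
  filter_upwards [mu_pos (fun _ : Fin (n + 1) => 1), ae_all_iff.2 h1] with l hpos hall ε hε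
  obtain ⟨k, hk⟩ := exists_nat_one_div_lt hε
  have h2 := hall k
  push Not at h2
  obtain ⟨X, q, w, s, hc, hs, hlt⟩ := h2 hpos
  refine ⟨X, q, w, s, hc, hs, hlt.trans_le ?_⟩
  exact mul_le_mul_of_nonneg_right hk.le (by positivity)

/-- PROOF.  `ae_cylinder` and `necessary` with `R = 2` (`d = n + 1`). -/
theorem ae_not_locallyClosed (d : ℕ) (hd : 2 ≤ d) (p : Equiv.Perm (Fin d))
    (hp : W_ef8234_h97.Irreducible p) :
    ∀ᵐ l ∂(volume : Measure (Fin d → ℝ)), (∀ a, 0 < l a) → ∀ η : ℝ, 0 < η → η < 1 →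
      ¬ ∃ S : Set (Disp 2 l), IsLocallyClosed S ∧
        ∀ᶠ g in 𝓝 (0 : Disp 2 l), (g ∈ S ↔ g ∈ ConjClass 2 p l η) := by
  obtain ⟨n, rfl⟩ : ∃ n, d = n + 1 := ⟨d - 1, by omega⟩
  filter_upwards [ae_cylinder (by omega) p hp] with l h hl η hη hη1 hS
  obtain ⟨c, hc, hcyl⟩ := necessary p l hl 2 le_rfl η hη hη1 hS
  obtain ⟨X, q, w, s, hc', hs, hlt⟩ := h hl c hc
  have h1 := hcyl X q w s hc' hs
  have h2 : c * (q * w ^ 2) = c * q * w ^ 2 := by ring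
  linarith

end Pool.Agent.W_ef8234_rv
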